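import Pool.Agent.D0H26.Nil.Mal

/-!
# Nilpotent groups with an arbitrary automorphism: quotients and Malcev theory

The constructions of `Pool.Agent.D0H26.Nil` for an automorphism that need not be hyperbolic.
-/

set_option autoImplicit false
set_option linter.unusedSectionVars false

open Filter Topology Set Metric
open scoped commutatorElement

namespace Pool.Agent.D0H26.Gen

open Pool.Agent.D0H26.Fac (HSp subV)
open Pool.Agent.D0H26.Nil (ExpCoord IsIdeal proj_mul finite_ball symm_mem)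

universe u v w

/-- A simply connected nilpotent Lie group in exponential coordinates, with an
automorphism `T` and a `T`-invariant central series of ideals. -/
structure NG (V : Type*) [NormedAddCommGroup V] [NormedSpace ℝ V] [Group V] where
  cmul : Continuous fun p : V × V => p.1 * p.2
  line : ∀ (s t : ℝ) (x : V), (s • x) * (t • x) = (s + t) • x
  acom : ∀ K : Submodule ℝ V, IsIdeal K → ∀ x y : V, x⁻¹ * y⁻¹ * x * y ∈ K →
    x * y - (x + y) ∈ K
  T : V ≃ₗ[ℝ] V
  Tmul : ∀ x y, T (x * y) = T x * T y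
  n : ℕ
  W : ℕ → Submodule ℝ V
  W0 : W 0 = ⊤
  Wn : W n = ⊥
  Wanti : ∀ i, W (i + 1) ≤ W i
  Wid : ∀ i, IsIdeal (W i)
  Wcom : ∀ i x, ∀ y ∈ W i, x⁻¹ * y⁻¹ * x * y ∈ W (i + 1)
  WT : ∀ i, ∀ x ∈ W i, T x ∈ W i

section
variable {V : Type*} [NormedAddCommGroup V] [NormedSpace ℝ V] [Group V]

theorem NG.one_eq (D : NG V) : (1 : V) = 0 := by
  have h := D.line 0 1 1
  rw [zero_smul, one_smul, zero_add, one_smul, mul_one] at h
  exact h.symm

theorem NG.inv_eq (D : NG V) (x : V) : x⁻¹ = -x := by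
  have h := D.line 1 (-1) x
  rw [one_smul, neg_smul, one_smul, add_neg_cancel, zero_smul, ← D.one_eq] at h
  exact inv_eq_of_mul_eq_one_right h

theorem NG.cinv (D : NG V) : Continuous fun x : V => x⁻¹ := by
  have : (fun x : V => x⁻¹) = fun x => -x := funext D.inv_eq
  rw [this]
  exact continuous_neg

theorem NG.pow_eq (D : NG V) (x : V) (m : ℕ) : x ^ m = (m : ℝ) • x := by
  induction m with
  | zero => rw [pow_zero, Nat.cast_zero, zero_smul, D.one_eq]
  | succ m ih =>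
    have h := D.line m 1 x
    rw [one_smul] at h
    rw [pow_succ, ih, h]
    push_cast
    rfl

theorem NG.T_one (D : NG V) : D.T 1 = 1 := by rw [D.one_eq, map_zero]

theorem NG.T_inv (D : NG V) (x : V) : D.T x⁻¹ = (D.T x)⁻¹ := by
  rw [D.inv_eq, D.inv_eq, map_neg]

theorem NG.Tsmul (D : NG V) (x y : V) : D.T.symm (x * y) = D.T.symm x * D.T.symm y := by
  rw [LinearEquiv.symm_apply_eq, D.Tmul, D.T.apply_symm_apply, D.T.apply_symm_apply]

/-- the subspaces of the central series are subgroups -/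
theorem NG.W_mul (D : NG V) {i : ℕ} {x y : V} (hx : x ∈ D.W i) (hy : y ∈ D.W i) :
    x * y ∈ D.W i := by
  have := (D.W i).add_mem ((D.Wid i) x y hy).1 hx
  rwa [sub_add_cancel] at this

theorem NG.W_inv (D : NG V) {i : ℕ} {x : V} (hx : x ∈ D.W i) : x⁻¹ ∈ D.W i := by
  rw [D.inv_eq]
  exact (D.W i).neg_mem hx

theorem NG.W_one (D : NG V) (i : ℕ) : (1 : V) ∈ D.W i := by
  rw [D.one_eq]
  exact (D.W i).zero_mem

theorem NG.W_le (D : NG V) {i j : ℕ} (h : i ≤ j) : D.W j ≤ D.W i :=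
  antitone_nat_of_succ_le D.Wanti h

/-- modulo the next term of the series the product is the sum -/
theorem NG.W_add (D : NG V) {i : ℕ} (x : V) {y : V} (hy : y ∈ D.W i) :
    x * y - (x + y) ∈ D.W (i + 1) :=
  D.acom _ (D.Wid (i + 1)) x y (D.Wcom i x y hy)

theorem NG.W_conj (D : NG V) {i : ℕ} (x : V) {y : V} (hy : y ∈ D.W i) :
    x⁻¹ * y * x ∈ D.W i := by
  have h1 := D.Wcom i x y⁻¹ (D.W_inv hy)
  have h2 : x⁻¹ * y * x = (x⁻¹ * y⁻¹⁻¹ * x * y⁻¹) * y := by group
  rw [h2]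
  exact D.W_mul (D.Wanti i h1) hy

end

section
variable {V : Type*} [NormedAddCommGroup V] [NormedSpace ℝ V] [Group V]

/-- commutators with powers, modulo the next term of the series -/
theorem NG.com_pow (D : NG V) (x a : V) (l : ℕ) (h : x⁻¹ * a⁻¹ * x * a ∈ D.W l) (M : ℕ) :
    x⁻¹ * (a ^ M)⁻¹ * x * a ^ M ∈ D.W l ∧
      x⁻¹ * (a ^ M)⁻¹ * x * a ^ M - (M : ℝ) • (x⁻¹ * a⁻¹ * x * a) ∈ D.W (l + 1) := by
  induction M with
  | zero =>
    have e : x⁻¹ * (a ^ 0)⁻¹ * x * a ^ 0 = 1 := by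
      rw [pow_zero]
      group
    rw [e, D.one_eq, Nat.cast_zero, zero_smul, sub_zero]
    exact ⟨(D.W _).zero_mem, (D.W _).zero_mem⟩
  | succ M ih =>
    obtain ⟨g, hg⟩ : ∃ g, g = x⁻¹ * (a ^ M)⁻¹ * x * a ^ M := ⟨_, rfl⟩
    obtain ⟨c, hc⟩ : ∃ c, c = x⁻¹ * a⁻¹ * x * a := ⟨_, rfl⟩
    rw [← hg, ← hc] at ih
    rw [← hc] at h ⊢
    obtain ⟨ih1, ih2⟩ := ih
    have e1 : x⁻¹ * (a ^ (M + 1))⁻¹ * x * a ^ (M + 1) = c * (a⁻¹ * g * a) := by
      rw [hg, hc, pow_succ]
      group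
    have hcg : a⁻¹ * g * a ∈ D.W l := D.W_conj a ih1
    have h3 : a⁻¹ * g * a - g ∈ D.W (l + 1) := by
      have h4 := D.W_inv (D.Wcom l a g ih1)
      have e2 : (a⁻¹ * g⁻¹ * a * g)⁻¹ = g⁻¹ * (a⁻¹ * g * a) := by group
      rw [e2] at h4
      have h5 := (D.Wid (l + 1) g _ h4).1
      rwa [mul_inv_cancel_left] at h5
    have h6 := D.W_add c hcg
    rw [e1]
    refine ⟨D.W_mul h hcg, ?_⟩
    have e3 : c * (a⁻¹ * g * a) - ((M + 1 : ℕ) : ℝ) • c =
        (c * (a⁻¹ * g * a) - (c + a⁻¹ * g * a)) + (a⁻¹ * g * a - g) + (g - (M : ℝ) • c) := by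
      push_cast
      rw [add_smul, one_smul]
      abel
    rw [e3]
    exact (D.W (l + 1)).add_mem ((D.W (l + 1)).add_mem h6 h3) ih2

end

section
variable {V : Type*} [NormedAddCommGroup V] [NormedSpace ℝ V] [FiniteDimensional ℝ V] [Group V]

theorem ideal_bot (D : NG V) : IsIdeal (⊥ : Submodule ℝ V) := by
  intro x k hk
  rw [Submodule.mem_bot] at hk
  rw [hk, ← D.one_eq, mul_one, sub_self, mul_inv_cancel, D.one_eq]
  exact ⟨Submodule.zero_mem _, Submodule.zero_mem _⟩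

/-- commuting elements add -/
theorem NG.add_of_com (D : NG V) {x y : V} (h : x * y = y * x) : x * y = x + y := by
  have h1 := D.acom _ (ideal_bot D) x y (by
    have e : x⁻¹ * y⁻¹ * x * y = (y * x)⁻¹ * (x * y) := by group
    rw [e, h, inv_mul_cancel, D.one_eq]
    exact Submodule.zero_mem _)
  rwa [Submodule.mem_bot, sub_eq_zero] at h1

/-- one-parameter subgroups are lines -/
theorem NG.onepar (D : NG V) (φ : ℝ → V) (hc : Continuous φ)
    (h : ∀ s t, φ (s + t) = φ s * φ t) (t : ℝ) : φ t = t • φ 1 := by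
  have hadd : ∀ s t, φ (s + t) = φ s + φ t := by
    intro s t
    rw [h]
    apply D.add_of_com
    rw [← h, ← h, add_comm]
  have h1 := map_real_smul (AddMonoidHom.mk' φ hadd) hc t 1
  rw [smul_eq_mul, mul_one] at h1
  exact h1

/-- the centre -/
def NG.cen (D : NG V) : Submodule ℝ V where
  carrier := {z | ∀ x, x * z = z * x}
  zero_mem' := by
    intro x
    rw [← D.one_eq, mul_one, one_mul]
  add_mem' := by
    intro a b ha hb x
    rw [← D.add_of_com (hb a), ← mul_assoc, ha, mul_assoc, hb, mul_assoc]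
  smul_mem' := by
    intro t z hz x
    have h1 := D.onepar (fun t => x⁻¹ * (t • z) * x) (by
      have c1 : Continuous fun t : ℝ => x⁻¹ * (t • z) :=
        D.cmul.comp (continuous_const.prodMk (continuous_id.smul continuous_const))
      exact D.cmul.comp (c1.prodMk continuous_const)) (fun s t => by
      show x⁻¹ * ((s + t) • z) * x = (x⁻¹ * (s • z) * x) * (x⁻¹ * (t • z) * x)
      rw [← D.line]
      group) t
    simp only [one_smul] at h1
    have h2 : x⁻¹ * z * x = z := by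
      rw [mul_assoc, ← hz x, inv_mul_cancel_left]
    rw [h2, mul_assoc, inv_mul_eq_iff_eq_mul] at h1
    exact h1.symm

theorem NG.mem_cen (D : NG V) (z : V) : z ∈ D.cen ↔ ∀ x, x * z = z * x := Iff.rfl

theorem NG.cen_add (D : NG V) : ∀ k ∈ D.cen, ∀ x, x * k = x + k ∧ k * x = x + k := by
  intro k hk x
  have h1 := D.add_of_com (hk x)
  exact ⟨h1, by rw [← hk x, h1]⟩

theorem NG.cen_T (D : NG V) : ∀ k ∈ D.cen, D.T k ∈ D.cen := by
  intro k hk x
  have h1 := congrArg D.T (hk (D.T.symm x))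
  rw [D.Tmul, D.Tmul, D.T.apply_symm_apply] at h1
  exact h1

/-- the centre is nontrivial -/
theorem NG.cen_ne (D : NG V) (h : D.cen = ⊥) (x : V) : x = 0 := by
  have key : ∀ m i : ℕ, D.n ≤ i + m → D.W i = ⊥ := by
    intro m
    induction m with
    | zero =>
      intro i hi
      rw [eq_bot_iff, ← D.Wn]
      exact D.W_le hi
    | succ m ih =>
      intro i hi
      have h1 := ih (i + 1) (by omega)
      rw [eq_bot_iff, ← h]
      intro y hy x
      have h2 := D.Wcom i x y hy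
      rw [h1, Submodule.mem_bot, ← D.one_eq] at h2
      have e : x⁻¹ * y⁻¹ * x * y = (y * x)⁻¹ * (x * y) := by group
      rw [e, inv_mul_eq_one] at h2
      exact h2.symm
  have h1 := key D.n 0 (by omega)
  rw [D.W0] at h1
  have h2 : x ∈ (⊤ : Submodule ℝ V) := trivial
  rw [h1] at h2
  exact (Submodule.mem_bot ℝ).1 h2

end

/-- the data of a quotient by a central subspace -/
structure QG {V : Type*} [NormedAddCommGroup V] [NormedSpace ℝ V] [Group V] (D : NG V)
    (V' : Type*) [NormedAddCommGroup V'] [NormedSpace ℝ V'] [Group V'] where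
  K : Submodule ℝ V
  q : V →ₗ[ℝ] V'
  ι : V' →ₗ[ℝ] V
  qι : ∀ x, q (ι x) = x
  nι : ∀ x, ‖ι x‖ ≤ ‖x‖
  mul : ∀ x y, q (x * y) = q x * q y
  mem : ∀ x, x - ι (q x) ∈ K
  kK : ∀ k ∈ K, q k = 0
  KT : ∀ k ∈ K, D.T k ∈ K
  KT' : ∀ k ∈ K, D.T.symm k ∈ K
  Kc : ∀ k ∈ K, ∀ x, x * k = x + k

section
variable {V : Type*} [NormedAddCommGroup V] [NormedSpace ℝ V] [FiniteDimensional ℝ V] [Group V]
  {D : NG V} {V' : Type*} [NormedAddCommGroup V'] [NormedSpace ℝ V'] [FiniteDimensional ℝ V']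
  [Group V'] (Q : QG D V')

/-- an endomorphism preserving `K` commutes with `q` modulo its quotient -/
theorem QG.comm (f : V →ₗ[ℝ] V) (hf : ∀ k ∈ Q.K, f k ∈ Q.K) (x : V) :
    Q.q (f (Q.ι (Q.q x))) = Q.q (f x) := by
  have h := Q.kK _ (hf _ (Q.mem x))
  rw [map_sub, map_sub, sub_eq_zero] at h
  exact h.symm

/-- the automorphism of the quotient -/
def QG.T' : V' ≃ₗ[ℝ] V' where
  toFun x := Q.q (D.T (Q.ι x))
  map_add' x y := by rw [map_add, map_add, map_add]
  map_smul' c x := by rw [map_smul, map_smul, map_smul]; rfl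
  invFun x := Q.q (D.T.symm (Q.ι x))
  left_inv x := by
    show Q.q (D.T.symm (Q.ι (Q.q (D.T (Q.ι x))))) = x
    have := Q.comm D.T.symm.toLinearMap Q.KT' (D.T (Q.ι x))
    simp only [LinearEquiv.coe_coe] at this
    rw [this, D.T.symm_apply_apply, Q.qι]
  right_inv x := by
    show Q.q (D.T (Q.ι (Q.q (D.T.symm (Q.ι x))))) = x
    have := Q.comm D.T.toLinearMap Q.KT (D.T.symm (Q.ι x))
    simp only [LinearEquiv.coe_coe] at this
    rw [this, D.T.apply_symm_apply, Q.qι]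

theorem QG.qT (x : V) : Q.q (D.T x) = Q.T' (Q.q x) :=
  (Q.comm D.T.toLinearMap Q.KT x).symm

theorem QG.qTs (x : V) : Q.q (D.T.symm x) = Q.T'.symm (Q.q x) :=
  (Q.comm D.T.symm.toLinearMap Q.KT' x).symm

theorem QG.cq : Continuous Q.q := LinearMap.continuous_of_finiteDimensional _

theorem QG.cι : Continuous Q.ι := LinearMap.continuous_of_finiteDimensional _

theorem QG.nq (x : V) : ‖Q.q x‖ ≤ ‖LinearMap.toContinuousLinearMap Q.q‖ * ‖x‖ :=
  (LinearMap.toContinuousLinearMap Q.q).le_opNorm x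

theorem QG.q_one : Q.q 1 = 1 := by
  have h := Q.mul 1 1
  rw [mul_one] at h
  exact (left_eq_mul.1 h)

theorem QG.mul' (x y : V') : x * y = Q.q (Q.ι x * Q.ι y) := by
  rw [Q.mul, Q.qι, Q.qι]

theorem QG.q_inv (x : V) : Q.q x⁻¹ = (Q.q x)⁻¹ := by
  have h := Q.mul x⁻¹ x
  rw [inv_mul_cancel, Q.q_one] at h
  exact eq_inv_of_mul_eq_one_left h.symm

theorem QG.ideal_comap {K' : Submodule ℝ V'} (h : IsIdeal K') : IsIdeal (K'.comap Q.q) := by
  intro x k hk
  rw [Submodule.mem_comap] at hk ⊢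
  rw [Submodule.mem_comap, map_sub, Q.mul, Q.mul, Q.mul, Q.q_inv]
  exact h _ _ hk

theorem QG.ideal_map {I : Submodule ℝ V} (h : IsIdeal I) : IsIdeal (I.map Q.q) := by
  rintro x' _ ⟨k, hk, rfl⟩
  obtain ⟨h1, h2⟩ := h (Q.ι x') k hk
  refine ⟨⟨_, h1, ?_⟩, ⟨_, h2, ?_⟩⟩
  · rw [map_sub, Q.mul, Q.qι]
  · rw [Q.mul, Q.mul, Q.q_inv, Q.qι]

/-- the quotient -/
noncomputable def QG.nb : NG V' where
  cmul := by
    have h : (fun p : V' × V' => p.1 * p.2) = fun p => Q.q (Q.ι p.1 * Q.ι p.2) :=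
      funext fun p => Q.mul' _ _
    rw [h]
    exact Q.cq.comp (D.cmul.comp ((Q.cι.comp continuous_fst).prodMk (Q.cι.comp continuous_snd)))
  line s t x := by
    rw [Q.mul', map_smul, map_smul, D.line, map_smul, Q.qι]
  acom K' hK' x y h := by
    have h1 := D.acom _ (Q.ideal_comap hK') (Q.ι x) (Q.ι y) (by
      rw [Submodule.mem_comap, Q.mul, Q.mul, Q.mul, Q.q_inv, Q.q_inv, Q.qι, Q.qι]
      exact h)
    rw [Submodule.mem_comap, map_sub, map_add, Q.mul, Q.qι, Q.qι] at h1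
    exact h1
  T := Q.T'
  Tmul x y := by
    have h1 := Q.qT (Q.ι x * Q.ι y)
    rw [D.Tmul, Q.mul, Q.mul, Q.qT, Q.qT, Q.qι, Q.qι] at h1
    exact h1.symm
  n := D.n
  W i := (D.W i).map Q.q
  W0 := by
    rw [D.W0, Submodule.map_top, LinearMap.range_eq_top]
    exact fun x => ⟨Q.ι x, Q.qι x⟩
  Wn := by rw [D.Wn, Submodule.map_bot]
  Wanti i := Submodule.map_mono (D.Wanti i)
  Wid i := Q.ideal_map (D.Wid i)
  Wcom i x' := by
    rintro _ ⟨y, hy, rfl⟩
    refine ⟨_, D.Wcom i (Q.ι x') y hy, ?_⟩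
    rw [Q.mul, Q.mul, Q.mul, Q.q_inv, Q.q_inv, Q.qι]
  WT i := by
    rintro _ ⟨x, hx, rfl⟩
    exact ⟨_, D.WT i x hx, Q.qT x⟩

/-- the projection as a homomorphism -/
def QG.hom : V →* V' where
  toFun := Q.q
  map_one' := Q.q_one
  map_mul' := Q.mul

end

section
variable {V : Type u} [NormedAddCommGroup V] [NormedSpace ℝ V] [FiniteDimensional ℝ V] [Group V]

/-- the group structure on a complement of a central subspace -/
@[reducible] noncomputable def qGroup (D : NG V) (K U : Submodule ℝ V) (h : IsCompl U K)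
    (hK : ∀ k ∈ K, ∀ x, x * k = x + k ∧ k * x = x + k) : Group U :=
  have hU : ∀ x : U, U.projectionOnto K h x = x := fun x =>
    Submodule.projectionOnto_apply_left h x
  { mul := fun x y => U.projectionOnto K h ((x : V) * (y : V))
    one := 0
    inv := fun x => -x
    mul_assoc := by
      intro x y z
      show U.projectionOnto K h ((U.projectionOnto K h ((x : V) * (y : V)) : V) * (z : V)) =
        U.projectionOnto K h ((x : V) * (U.projectionOnto K h ((y : V) * (z : V)) : V))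
      have h1 := proj_mul K U h hK ((x : V) * (y : V)) z
      have h2 := proj_mul K U h hK (x : V) ((y : V) * (z : V))
      rw [hU] at h1 h2
      rw [← h1, ← h2, mul_assoc]
    one_mul := by
      intro x
      show U.projectionOnto K h (((0 : U) : V) * (x : V)) = x
      rw [Submodule.coe_zero, ← D.one_eq, one_mul, hU]
    mul_one := by
      intro x
      show U.projectionOnto K h ((x : V) * ((0 : U) : V)) = x
      rw [Submodule.coe_zero, ← D.one_eq, mul_one, hU]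
    inv_mul_cancel := by
      intro x
      show U.projectionOnto K h (((-x : U) : V) * (x : V)) = 0
      rw [Submodule.coe_neg, ← D.inv_eq, inv_mul_cancel, D.one_eq, map_zero] }

end

section
variable {V : Type*} [NormedAddCommGroup V] [NormedSpace ℝ V] [FiniteDimensional ℝ V] [Group V]

/-- if the commutators with the powers are bounded then they are trivial -/
theorem NG.bdd_com (D : NG V) (v c : V) (C' : ℝ)
    (hb : ∀ M : ℕ, ‖v⁻¹ * (c ^ M)⁻¹ * v * c ^ M‖ ≤ C') : v * c = c * v := by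
  have step : ∀ l : ℕ, v⁻¹ * c⁻¹ * v * c ∈ D.W l → v⁻¹ * c⁻¹ * v * c ∈ D.W (l + 1) := by
    intro l hl
    obtain ⟨e, he⟩ : ∃ e, e = v⁻¹ * c⁻¹ * v * c := ⟨_, rfl⟩
    have hcl : IsClosed (D.W (l + 1) : Set V) := Submodule.closed_of_finiteDimensional _
    have h3 : Tendsto (fun k : ℕ => ((k : ℝ) + 1)⁻¹ • (((k : ℝ) + 1) • e -
        v⁻¹ * (c ^ (k + 1))⁻¹ * v * c ^ (k + 1))) atTop (𝓝 e) := by
      have e1 : ∀ k : ℕ, ((k : ℝ) + 1)⁻¹ • (((k : ℝ) + 1) • e -
          v⁻¹ * (c ^ (k + 1))⁻¹ * v * c ^ (k + 1)) = e -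
          ((k : ℝ) + 1)⁻¹ • (v⁻¹ * (c ^ (k + 1))⁻¹ * v * c ^ (k + 1)) := by
        intro k
        have : ((k : ℝ) + 1) ≠ 0 := by positivity
        rw [smul_sub, smul_smul, inv_mul_cancel₀ this, one_smul]
      simp_rw [e1]
      have h4 : Tendsto (fun k : ℕ => ((k : ℝ) + 1)⁻¹ •
          (v⁻¹ * (c ^ (k + 1))⁻¹ * v * c ^ (k + 1))) atTop (𝓝 0) := by
        rw [tendsto_zero_iff_norm_tendsto_zero]
        have h5 : Tendsto (fun k : ℕ => ((k : ℝ) + 1)⁻¹ * C') atTop (𝓝 0) := by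
          have := (tendsto_one_div_add_atTop_nhds_zero_nat (𝕜 := ℝ)).mul_const C'
          simpa using this
        refine squeeze_zero (fun k => norm_nonneg _) (fun k => ?_) h5
        have hk : (0 : ℝ) < (k : ℝ) + 1 := by positivity
        rw [norm_smul, norm_inv, Real.norm_of_nonneg hk.le]
        exact mul_le_mul_of_nonneg_left (hb _) (inv_nonneg.2 hk.le)
      have := (tendsto_const_nhds (x := e)).sub h4
      rwa [sub_zero] at this
    rw [← he]
    refine hcl.mem_of_tendsto h3 (Eventually.of_forall fun k => ?_)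
    have h6 := (D.com_pow v c l hl (k + 1)).2
    rw [← he] at h6
    push_cast at h6
    have h7 := (D.W (l + 1)).smul_mem (((k : ℝ) + 1)⁻¹) ((D.W (l + 1)).neg_mem h6)
    rwa [neg_sub] at h7
  have all : ∀ l : ℕ, v⁻¹ * c⁻¹ * v * c ∈ D.W l := by
    intro l
    induction l with
    | zero => rw [D.W0]; trivial
    | succ l ih => exact step l ih
  have h1 := all D.n
  rw [D.Wn, Submodule.mem_bot, ← D.one_eq] at h1
  have e : v⁻¹ * c⁻¹ * v * c = (c * v)⁻¹ * (v * c) := by group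
  rw [e, inv_mul_eq_one] at h1
  exact h1.symm

/-- elements commuting with a cocompact subgroup are central -/
theorem NG.cen_of (D : NG V) (Γ : Subgroup V) (R : ℝ) (coc : ∀ x, ∃ γ ∈ Γ, ‖γ * x‖ ≤ R) (e : V)
    (he : ∀ γ ∈ Γ, e * γ = γ * e) : e ∈ D.cen := by
  have hpr : ProperSpace V := FiniteDimensional.proper ℝ V
  intro x
  have hc : Continuous fun b : V => e⁻¹ * b⁻¹ * e * b := by
    have c1 : Continuous fun b : V => e⁻¹ * b⁻¹ := D.cmul.comp (continuous_const.prodMk D.cinv)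
    have c2 : Continuous fun b : V => e⁻¹ * b⁻¹ * e := D.cmul.comp (c1.prodMk continuous_const)
    exact D.cmul.comp (c2.prodMk continuous_id)
  obtain ⟨C, hC⟩ := (isCompact_closedBall (0 : V) R).exists_bound_of_continuousOn
    hc.continuousOn
  refine (D.bdd_com e x C fun M => ?_).symm
  obtain ⟨γ, hγ, hn⟩ := coc (x ^ M)
  obtain ⟨b, hb⟩ : ∃ b, b = γ * x ^ M := ⟨_, rfl⟩
  have hx : x ^ M = γ⁻¹ * b := by rw [hb, inv_mul_cancel_left]
  have h1 : e⁻¹ * (x ^ M)⁻¹ * e * x ^ M = e⁻¹ * b⁻¹ * e * b := by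
    rw [hx]
    have h2 := he γ hγ
    calc e⁻¹ * (γ⁻¹ * b)⁻¹ * e * (γ⁻¹ * b) = e⁻¹ * b⁻¹ * (γ * e) * γ⁻¹ * b := by group
      _ = e⁻¹ * b⁻¹ * e * b := by rw [← h2]; group
  rw [h1]
  rw [← hb] at hn
  exact hC b (mem_closedBall_zero_iff.2 hn)

/-- a finite set detecting central elements -/
theorem exists_detect (D : NG V) (E : ExpCoord V) (Γ : Subgroup V) (R : ℝ)
    (coc : ∀ x, ∃ γ ∈ Γ, ‖γ * x‖ ≤ R) : ∃ S : Finset V, (∀ s ∈ S, s ∈ Γ) ∧
      ∀ e : V, (∀ s ∈ S, e * s = s * e) → e ∈ D.cen := by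
  obtain ⟨S, hS, hspan⟩ := (Submodule.fg_span_iff_fg_span_finset_subset (R := ℝ)
    (Γ : Set V)).1 (IsNoetherian.noetherian _)
  refine ⟨S, fun s hs => hS hs, fun e he => D.cen_of Γ R coc e fun γ hγ => ?_⟩
  obtain ⟨K, hK⟩ := E.fix e
  have h1 : Submodule.span ℝ (S : Set V) ≤ K := by
    rw [Submodule.span_le]
    intro s hs
    exact (hK s).2 (he s hs)
  have h2 : γ ∈ Submodule.span ℝ (S : Set V) := by
    rw [← hspan]
    exact Submodule.subset_span hγ
  exact (hK γ).1 (h1 h2)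

/-- **Malcev**: a lattice meets the centre in a lattice -/
theorem cen_coc (D : NG V) (E : ExpCoord V) (Γ : Subgroup V)
    (disc : ∃ r > 0, ∀ γ ∈ Γ, ‖γ‖ < r → γ = 1) (R : ℝ) (coc : ∀ x, ∃ γ ∈ Γ, ‖γ * x‖ ≤ R) :
    ∃ R' : ℝ, ∀ z ∈ D.cen, ∃ γ ∈ Γ, γ ∈ D.cen ∧ ‖γ * z‖ ≤ R' := by
  classical
  have hpr : ProperSpace V := FiniteDimensional.proper ℝ V
  obtain ⟨S, hSΓ, hS⟩ := exists_detect D E Γ R coc
  choose γ hγ hn using coc
  -- bounds for the commutators
  have hbd : ∀ s : V, ∃ C : ℝ, ∀ b : V, ‖b‖ ≤ R → ‖b * s * b⁻¹ * s⁻¹‖ ≤ C := by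
    intro s
    have hc : Continuous fun b : V => b * s * b⁻¹ * s⁻¹ := by
      have c1 : Continuous fun b : V => b * s := D.cmul.comp (continuous_id.prodMk continuous_const)
      have c2 : Continuous fun b : V => b * s * b⁻¹ := D.cmul.comp (c1.prodMk D.cinv)
      exact D.cmul.comp (c2.prodMk continuous_const)
    obtain ⟨C, hC⟩ := (isCompact_closedBall (0 : V) R).exists_bound_of_continuousOn
      hc.continuousOn
    exact ⟨C, fun b hb => hC b (mem_closedBall_zero_iff.2 hb)⟩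
  choose C hC using hbd
  obtain ⟨R₂, hR₂⟩ : ∃ R₂, R₂ = ∑ s ∈ S, |C s| := ⟨_, rfl⟩
  obtain ⟨Φ, hΦ⟩ : ∃ Φ, Φ = {γ : V | γ ∈ Γ ∧ ‖γ‖ ≤ R₂} := ⟨_, rfl⟩
  have hΦf : Φ.Finite := by rw [hΦ]; exact finite_ball E Γ disc R₂
  -- the classes
  let κ : V → (S → V) := fun z s => γ z * s * (γ z)⁻¹ * (s : V)⁻¹
  have hκ : ∀ z ∈ D.cen, κ z ∈ Set.pi univ (fun _ : S => Φ) := by
    intro z hz s _
    rw [hΦ]
    refine ⟨Γ.mul_mem (Γ.mul_mem (Γ.mul_mem (hγ z) (hSΓ s s.2)) (Γ.inv_mem (hγ z)))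
      (Γ.inv_mem (hSΓ s s.2)), ?_⟩
    have e : κ z s = (γ z * z) * s * (γ z * z)⁻¹ * (s : V)⁻¹ := by
      show γ z * s * (γ z)⁻¹ * (s : V)⁻¹ = _
      have h1 := hz (s : V)
      calc γ z * s * (γ z)⁻¹ * (s : V)⁻¹ = γ z * (s * z) * z⁻¹ * (γ z)⁻¹ * (s : V)⁻¹ := by group
        _ = (γ z * z) * s * (γ z * z)⁻¹ * (s : V)⁻¹ := by rw [h1]; group
    rw [e]
    refine (hC s _ (hn z)).trans ((le_abs_self _).trans ?_)
    rw [hR₂]
    exact Finset.single_le_sum (f := fun t => |C t|) (fun i _ => abs_nonneg _) s.2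
  have hfin : (Set.pi univ (fun _ : S => Φ)).Finite := Set.Finite.pi fun _ => hΦf
  have hrep : ∀ k : S → V, ∃ z : V, (∃ z' ∈ D.cen, κ z' = k) → z ∈ D.cen ∧ κ z = k := by
    intro k
    by_cases h : ∃ z' ∈ D.cen, κ z' = k
    · obtain ⟨z', hz', h⟩ := h
      exact ⟨z', fun _ => ⟨hz', h⟩⟩
    · exact ⟨1, fun h' => absurd h' h⟩
  choose rep hrep using hrep
  have hbd2 : ∀ k : S → V, ∃ C : ℝ, ∀ b : V, ‖b‖ ≤ R → ‖(γ (rep k))⁻¹ * b‖ ≤ C := by
    intro k
    have hc : Continuous fun b : V => (γ (rep k))⁻¹ * b :=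
      D.cmul.comp (continuous_const.prodMk continuous_id)
    obtain ⟨C, hC⟩ := (isCompact_closedBall (0 : V) R).exists_bound_of_continuousOn
      hc.continuousOn
    exact ⟨C, fun b hb => hC b (mem_closedBall_zero_iff.2 hb)⟩
  choose C' hC' using hbd2
  refine ⟨∑ k ∈ hfin.toFinset, |C' k|, fun z hz => ?_⟩
  obtain ⟨hz0, hk⟩ := hrep (κ z) ⟨z, hz, rfl⟩
  obtain ⟨z0, hz0def⟩ : ∃ z0, z0 = rep (κ z) := ⟨_, rfl⟩
  rw [← hz0def] at hz0 hk
  refine ⟨(γ z0)⁻¹ * γ z, Γ.mul_mem (Γ.inv_mem (hγ _)) (hγ _), hS _ fun s hs => ?_, ?_⟩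
  · have h1 : κ z0 ⟨s, hs⟩ = κ z ⟨s, hs⟩ := by rw [hk]
    have h2 : γ z0 * s * (γ z0)⁻¹ * s⁻¹ = γ z * s * (γ z)⁻¹ * s⁻¹ := h1
    have h3 : γ z0 * s * (γ z0)⁻¹ = γ z * s * (γ z)⁻¹ := mul_right_cancel h2
    calc (γ z0)⁻¹ * γ z * s = (γ z0)⁻¹ * (γ z * s * (γ z)⁻¹) * γ z := by group
      _ = s * ((γ z0)⁻¹ * γ z) := by rw [← h3]; group
  · rw [mul_assoc]
    have h1 := hC' (κ z) _ (hn z)
    rw [← hz0def] at h1
    refine h1.trans ((le_abs_self _).trans ?_)
    exact Finset.single_le_sum (f := fun t => |C' t|) (fun i _ => abs_nonneg _)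
      (hfin.mem_toFinset.2 (hκ z hz))

/-- the image of a lattice modulo the centre is discrete -/
theorem disc_image {D : NG V} (E : ExpCoord V) {V' : Type*} [NormedAddCommGroup V']
    [NormedSpace ℝ V'] [FiniteDimensional ℝ V'] [Group V'] (Q : QG D V') (hQ : Q.K = D.cen)
    (Γ : Subgroup V) (disc : ∃ r > 0, ∀ γ ∈ Γ, ‖γ‖ < r → γ = 1) (R : ℝ)
    (hR : ∀ z ∈ D.cen, ∃ γ ∈ Γ, γ ∈ D.cen ∧ ‖γ * z‖ ≤ R) :
    ∃ r > 0, ∀ γ ∈ Γ.map Q.hom, ‖γ‖ < r → γ = 1 := by
  have hpr : ProperSpace V := FiniteDimensional.proper ℝ V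
  have hpr' : ProperSpace V' := FiniteDimensional.proper ℝ V'
  have hq1 : (1 : V') = 0 := by rw [← Q.q_one, D.one_eq, map_zero]
  have hc : Continuous fun p : V' × V => Q.ι p.1 * p.2 :=
    D.cmul.comp ((Q.cι.comp continuous_fst).prodMk continuous_snd)
  obtain ⟨R₂, hR₂⟩ := ((isCompact_closedBall (0 : V') 1).prod
    (isCompact_closedBall (0 : V) R)).exists_bound_of_continuousOn hc.continuousOn
  have hfin := finite_ball E Γ disc R₂
  have hfin' : ({γ : V | γ ∈ Γ ∧ ‖γ‖ ≤ R₂} ∩ {γ | Q.q γ ≠ 0}).Finite :=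
    hfin.subset inter_subset_left
  obtain ⟨r, hr, hr1⟩ : ∃ r > 0, ∀ γ ∈ ({γ : V | γ ∈ Γ ∧ ‖γ‖ ≤ R₂} ∩ {γ | Q.q γ ≠ 0}),
      r ≤ ‖Q.q γ‖ := by
    rcases ({γ : V | γ ∈ Γ ∧ ‖γ‖ ≤ R₂} ∩ {γ | Q.q γ ≠ 0}).eq_empty_or_nonempty with h | h
    · refine ⟨1, one_pos, fun γ hγ => ?_⟩
      rw [h] at hγ
      exact absurd hγ (Set.notMem_empty _)
    · obtain ⟨γ₀, h0, hmin⟩ := Set.exists_min_image _ (fun γ => ‖Q.q γ‖) hfin' h
      exact ⟨‖Q.q γ₀‖, norm_pos_iff.2 h0.2, hmin⟩
  refine ⟨min r 1, lt_min hr one_pos, ?_⟩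
  rintro _ ⟨γ, hγ, rfl⟩ hn
  have hn' : ‖Q.q γ‖ < min r 1 := hn
  show Q.q γ = 1
  rw [hq1]
  by_contra hne
  have hk : γ - Q.ι (Q.q γ) ∈ D.cen := by
    rw [← hQ]
    exact Q.mem γ
  obtain ⟨k, hkd⟩ : ∃ k, k = γ - Q.ι (Q.q γ) := ⟨_, rfl⟩
  rw [← hkd] at hk
  have hγk : γ = Q.ι (Q.q γ) * k := by
    rw [(D.cen_add k hk _).1, hkd]
    abel
  obtain ⟨l, hl, hlc, hln⟩ := hR k hk
  have h1 : l * γ = Q.ι (Q.q γ) * (l * k) := by
    have := hlc (Q.ι (Q.q γ))
    conv_lhs => rw [hγk]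
    rw [← mul_assoc, ← this, mul_assoc]
  have h2 : ‖l * γ‖ ≤ R₂ := by
    rw [h1]
    exact hR₂ (Q.q γ, l * k) ⟨mem_closedBall_zero_iff.2 (hn'.le.trans (min_le_right _ _)),
      mem_closedBall_zero_iff.2 hln⟩
  have h3 : Q.q (l * γ) = Q.q γ := by
    rw [Q.mul, Q.kK l (by rw [hQ]; exact hlc), ← hq1, one_mul]
  have h4 := hr1 (l * γ) ⟨⟨Γ.mul_mem hl hγ, h2⟩, by rw [mem_setOf_eq, h3]; exact hne⟩
  rw [h3] at h4
  exact absurd (h4.trans_lt (hn'.trans_le (min_le_left _ _))) (lt_irrefl _)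

end

/-- quotients exist -/
theorem exists_QG {V : Type u} [NormedAddCommGroup V] [NormedSpace ℝ V] [FiniteDimensional ℝ V]
    [Group V] (D : NG V) (K : Submodule ℝ V)
    (hK : ∀ k ∈ K, ∀ x, x * k = x + k ∧ k * x = x + k) (hKT : ∀ k ∈ K, D.T k ∈ K) :
    ∃ (V' : Type u) (_ : NormedAddCommGroup V') (_ : NormedSpace ℝ V')
      (_ : FiniteDimensional ℝ V') (_ : Group V') (Q : QG D V'), Q.K = K ∧
      Module.finrank ℝ V' + Module.finrank ℝ K = Module.finrank ℝ V := by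
  obtain ⟨U, hU⟩ := K.exists_isCompl
  have hU' : IsCompl U K := hU.symm
  letI : Group U := qGroup D K U hU' hK
  let Q : QG D U :=
    { K := K
      q := U.projectionOnto K hU'
      ι := U.subtype
      qι := fun x => Submodule.projectionOnto_apply_left hU' x
      nι := fun x => le_rfl
      mul := proj_mul K U hU' hK
      mem := fun v => Submodule.sub_projection_mem hU' v
      kK := fun k hk => (Submodule.projectionOnto_apply_eq_zero_iff hU').2 hk
      KT := hKT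
      KT' := symm_mem D.T K hKT
      Kc := fun k hk x => (hK k hk x).1 }
  exact ⟨U, inferInstance, inferInstance, inferInstance, this, Q, rfl,
    Submodule.finrank_add_eq_of_isCompl hU'⟩

/-- exponential coordinates of a quotient -/
theorem push {V : Type*} [NormedAddCommGroup V] [NormedSpace ℝ V]
    [FiniteDimensional ℝ V] [Group V] (E : ExpCoord V) {V' : Type*} [NormedAddCommGroup V']
    [NormedSpace ℝ V'] [FiniteDimensional ℝ V'] [Group V'] (B' : NG V') (p : V →ₗ[ℝ] V')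
    (hs : Function.Surjective p) (hm : ∀ x y, p (x * y) = p x * p y) : ExpCoord V' where
  cont := B'.cmul
  line := B'.line
  trotter := by
    intro x' y'
    obtain ⟨x, rfl⟩ := hs x'
    obtain ⟨y, rfl⟩ := hs y'
    have hcp : Continuous p := LinearMap.continuous_of_finiteDimensional _
    have h1 := (hcp.tendsto _).comp (E.trotter x y)
    rw [map_add] at h1
    refine h1.congr fun k => ?_
    show p _ = _
    rw [map_smul, hm, map_smul, map_smul]

/-- **Malcev**: a lattice is compatible with an invariant central series -/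
theorem malcev (m : ℕ) : ∀ (V : Type u) [NormedAddCommGroup V] [NormedSpace ℝ V]
    [FiniteDimensional ℝ V] [Group V] (D : NG V) (_ : ExpCoord V) (Γ : Subgroup V)
    (_ : ∃ r > 0, ∀ γ ∈ Γ, ‖γ‖ < r → γ = 1) (R : ℝ) (_ : ∀ x, ∃ γ ∈ Γ, ‖γ * x‖ ≤ R),
    Module.finrank ℝ V = m → ∃ (n : ℕ) (U : ℕ → Submodule ℝ V) (R' : ℝ), U 0 = ⊤ ∧ U n = ⊥ ∧
      ∀ i, U (i + 1) ≤ U i ∧ (∀ x, ∀ y ∈ U i, x⁻¹ * y⁻¹ * x * y ∈ U (i + 1)) ∧
        (∀ x ∈ U i, D.T x ∈ U i) ∧ ∀ x ∈ U i, ∃ γ ∈ Γ, γ ∈ U i ∧ ‖γ * x‖ ≤ R' := by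
  induction m using Nat.strong_induction_on with
  | _ m ih =>
    intro V _ _ _ _ D E Γ disc R coc hm
    have hpr : ProperSpace V := FiniteDimensional.proper ℝ V
    by_cases hbot : D.cen = ⊥
    · refine ⟨0, fun _ => ⊤, R, rfl, ?_, fun i => ⟨le_rfl, fun _ _ _ => trivial,
        fun _ _ => trivial, fun x _ => ?_⟩⟩
      · rw [eq_bot_iff]
        intro x _
        rw [Submodule.mem_bot]
        exact D.cen_ne hbot x
      · obtain ⟨γ, hγ, hn⟩ := coc x
        exact ⟨γ, hγ, trivial, hn⟩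
    obtain ⟨Rz, hRz⟩ := cen_coc D E Γ disc R coc
    obtain ⟨V', _, _, _, _, Q, hQ, hfr⟩ := exists_QG D D.cen D.cen_add D.cen_T
    have h4 : 1 ≤ Module.finrank ℝ D.cen := by
      rw [Submodule.one_le_finrank_iff]
      exact hbot
    have hpr' : ProperSpace V' := FiniteDimensional.proper ℝ V'
    have E' : ExpCoord V' := push E Q.nb Q.q (fun x => ⟨Q.ι x, Q.qι x⟩) Q.mul
    have hq1 : (1 : V') = 0 := by rw [← Q.q_one, D.one_eq, map_zero]
    obtain ⟨n, U, R', hU0, hUn, hU⟩ := ih _ (by omega) V' Q.nb E' (Γ.map Q.hom)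
      (disc_image E Q hQ Γ disc Rz hRz) (‖LinearMap.toContinuousLinearMap Q.q‖ * R) (by
        intro x
        obtain ⟨γ, hγ, hn⟩ := coc (Q.ι x)
        refine ⟨Q.q γ, ⟨γ, hγ, rfl⟩, ?_⟩
        have e : Q.q γ * x = Q.q (γ * Q.ι x) := by rw [Q.mul, Q.qι]
        rw [e]
        exact (Q.nq _).trans (mul_le_mul_of_nonneg_left hn (norm_nonneg _))) rfl
    -- a bound for the lifts
    have hc : Continuous fun p : V' × V => Q.ι p.1 * p.2 :=
      D.cmul.comp ((Q.cι.comp continuous_fst).prodMk continuous_snd)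
    obtain ⟨R₂, hR₂⟩ := ((isCompact_closedBall (0 : V') R').prod
      (isCompact_closedBall (0 : V) Rz)).exists_bound_of_continuousOn hc.continuousOn
    have hker : ∀ x, x ∈ (⊥ : Submodule ℝ V').comap Q.q ↔ x ∈ D.cen := by
      intro x
      rw [Submodule.mem_comap, Submodule.mem_bot, ← hQ]
      constructor
      · intro h
        have := Q.mem x
        rwa [h, map_zero, sub_zero] at this
      · exact Q.kK x
    refine ⟨n + 1, fun i => if i ≤ n then (U i).comap Q.q else ⊥, max R₂ 0, ?_, ?_, fun i => ?_⟩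
    · simp only [Nat.zero_le, if_true, hU0, Submodule.comap_top]
    · have : ¬ (n + 1 ≤ n) := by omega
      simp only [this, if_false]
    · obtain ⟨u1, u2, u3, u4⟩ := hU i
      have hcase : i < n ∨ i = n ∨ n < i := by omega
      have hlift : i ≤ n → ∀ x ∈ (U i).comap Q.q, ∃ γ ∈ Γ, γ ∈ (U i).comap Q.q ∧
          ‖γ * x‖ ≤ max R₂ 0 := by
        intro _ x hx
        obtain ⟨_, ⟨γ, hγ, rfl⟩, hγU, hn⟩ := u4 (Q.q x) hx
        have hn' : ‖Q.q (γ * x)‖ ≤ R' := by
          rw [Q.mul]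
          exact hn
        obtain ⟨k, hk, hkx⟩ : ∃ k ∈ D.cen, γ * x = Q.ι (Q.q (γ * x)) * k := by
          have h1 := Q.mem (γ * x)
          refine ⟨γ * x - Q.ι (Q.q (γ * x)), by rwa [hQ] at h1, ?_⟩
          rw [Q.Kc _ h1]
          abel
        obtain ⟨l, hl, hlc, hln⟩ := hRz k hk
        refine ⟨l * γ, Γ.mul_mem hl hγ, ?_, ?_⟩
        · rw [Submodule.mem_comap, Q.mul, Q.kK l (by rw [hQ]; exact hlc), ← hq1, one_mul]
          exact hγU
        · have h1 : l * γ * x = Q.ι (Q.q (γ * x)) * (l * k) := by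
            have := hlc (Q.ι (Q.q (γ * x)))
            rw [mul_assoc, hkx, Q.mul (Q.ι (Q.q (γ * x))) k, Q.qι,
              Q.kK k (by rw [hQ]; exact hk), ← hq1, mul_one, ← mul_assoc, ← this, mul_assoc]
          rw [h1]
          exact (hR₂ (Q.q (γ * x), l * k) ⟨mem_closedBall_zero_iff.2 hn',
            mem_closedBall_zero_iff.2 hln⟩).trans (le_max_left _ _)
      rcases hcase with h | h | h
      · have h1 : i ≤ n := h.le
        have h2 : i + 1 ≤ n := h
        simp only [h1, h2, if_true]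
        refine ⟨Submodule.comap_mono u1, fun x y hy => ?_, fun x hx => ?_, hlift h1⟩
        · rw [Submodule.mem_comap, Q.mul, Q.mul, Q.mul, Q.q_inv, Q.q_inv]
          exact u2 _ _ hy
        · rw [Submodule.mem_comap, Q.qT]
          exact u3 _ hx
      · subst h
        have h2 : ¬ (i + 1 ≤ i) := by omega
        simp only [le_refl, h2, if_true, if_false]
        refine ⟨bot_le, fun x y hy => ?_, fun x hx => ?_, hlift le_rfl⟩
        · rw [hUn, hker] at hy
          rw [Submodule.mem_bot, ← D.one_eq]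
          have e : x⁻¹ * y⁻¹ * x * y = (y * x)⁻¹ * (x * y) := by group
          rw [e, hy x, inv_mul_cancel]
        · rw [Submodule.mem_comap, Q.qT]
          exact u3 _ hx
      · have h1 : ¬ (i ≤ n) := by omega
        have h2 : ¬ (i + 1 ≤ n) := by omega
        simp only [h1, h2, if_false]
        refine ⟨le_rfl, fun x y hy => ?_, fun x hx => ?_, fun x hx => ?_⟩
        · rw [Submodule.mem_bot, ← D.one_eq] at hy
          rw [hy, inv_one, mul_one, mul_one, inv_mul_cancel, D.one_eq]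
          exact Submodule.zero_mem _
        · rw [Submodule.mem_bot] at hx
          rw [hx, map_zero]
          exact Submodule.zero_mem _
        · rw [Submodule.mem_bot, ← D.one_eq] at hx
          refine ⟨1, Γ.one_mem, ?_, ?_⟩
          · rw [D.one_eq]
            exact Submodule.zero_mem _
          · rw [hx, mul_one, D.one_eq, norm_zero]
            exact le_max_right _ _

section
variable {V : Type*} [NormedAddCommGroup V] [NormedSpace ℝ V] [FiniteDimensional ℝ V] [Group V]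

/-- the group with its upper central series -/
theorem nb (E : ExpCoord V) (hn : Group.IsNilpotent V) (T : V ≃ₗ[ℝ] V)
    (hT : ∀ x y, T (x * y) = T x * T y) : ∃ B : NG V, B.T = T := by
  obtain ⟨n, hn⟩ := Group.IsNilpotent.nilpotent V
  choose K hK hKm using E.ucs
  let e : V ≃* V :=
    { toFun := T
      invFun := T.symm
      left_inv := T.symm_apply_apply
      right_inv := T.apply_symm_apply
      map_mul' := hT }
  have hchar : ∀ i x, x ∈ Subgroup.upperCentralSeries V i →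
      T x ∈ Subgroup.upperCentralSeries V i := by
    intro i x hx
    have h1 := Subgroup.comap_upperCentralSeries e i
    rw [← h1] at hx
    exact hx
  have h0 : ∀ x, x ∈ K 0 → x = 1 := by
    intro x hx
    rw [hKm, Subgroup.upperCentralSeries_zero, Subgroup.mem_bot] at hx
    exact hx
  have hcom : ∀ i x, ∀ y ∈ K (i + 1), x⁻¹ * y⁻¹ * x * y ∈ K i := by
    intro i x y hy
    rw [hKm] at hy ⊢
    have h1 := Subgroup.mem_upperCentralSeries_succ_iff.1 (inv_mem hy) x⁻¹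
    have h2 := inv_mem h1
    have e : (⁅y⁻¹, x⁻¹⁆)⁻¹ = x⁻¹ * y⁻¹ * x * y := by
      rw [commutatorElement_def]
      group
    rwa [e] at h2
  have hmono : ∀ i, K i ≤ K (i + 1) := by
    intro i x hx
    rw [hKm] at hx ⊢
    rw [Subgroup.mem_upperCentralSeries_succ_iff]
    intro y
    have hnorm : (Subgroup.upperCentralSeries V i).Normal := inferInstance
    rw [commutatorElement_def]
    have h1 := hnorm.conj_mem _ (inv_mem hx) y
    have e : x * y * x⁻¹ * y⁻¹ = x * (y * x⁻¹ * y⁻¹) := by group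
    rw [e]
    exact mul_mem hx h1
  exact ⟨{ cmul := E.cont
           line := E.line
           acom := fun K hK x y h => E.acom K hK x y h
           T := T
           Tmul := hT
           n := n
           W := fun i => K (n - i)
           W0 := by
             rw [Nat.sub_zero, eq_top_iff]
             intro x _
             rw [hKm, hn]
             trivial
           Wn := by
             rw [Nat.sub_self, eq_bot_iff]
             intro x hx
             rw [Submodule.mem_bot, h0 x hx, E.one_eq]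
           Wanti := fun i => by
             rcases Nat.lt_or_ge i n with h | h
             · have e : n - i = (n - (i + 1)) + 1 := by omega
               rw [e]
               exact hmono _
             · have e1 : n - i = 0 := by omega
               have e2 : n - (i + 1) = 0 := by omega
               rw [e1, e2]
           Wid := fun i => hK _
           Wcom := fun i x y hy => by
             rcases Nat.lt_or_ge i n with h | h
             · have e : n - i = (n - (i + 1)) + 1 := by omega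
               rw [e] at hy
               exact hcom _ x y hy
             · have e1 : n - i = 0 := by omega
               have e2 : n - (i + 1) = 0 := by omega
               rw [e1] at hy
               rw [e2, h0 y hy, inv_one, mul_one, mul_one, inv_mul_cancel, E.one_eq]
               exact Submodule.zero_mem _
           WT := fun i x hx => by
             rw [hKm] at hx ⊢
             exact hchar _ x hx }, rfl⟩

end

end Pool.Agent.D0H26.Gen
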