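import Pool.Agent.D0H26.Gen.Ind

/-!
# Expansive factors of affine diffeomorphisms of compact nilmanifolds
-/

set_option autoImplicit false
set_option linter.unusedSectionVars false

open Filter Topology Set Metric

namespace Pool.Agent.D0H26.Gen

open Pool.Agent.D0H26.Fac (HSp subV)
open Pool.Agent.D0H26.Nil (ExpCoord IsIdeal NB ND)
open Pool.Agent.D0H26.Nilm
open Pool.Agent.TH289.K (Expansive)

universe u v w

/-- An affine diffeomorphism `x ↦ T x * b` of a compact nilmanifold `Γ \ V`: a (simply connected)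
nilpotent Lie group `V` in exponential coordinates, any automorphism `T` of the group, an element
`b` of `V`, and a lattice `Γ` (a discrete cocompact subgroup) with `T Γ = Γ`. -/
structure NilMap (V : Type*) [NormedAddCommGroup V] [NormedSpace ℝ V] [Group V] where
  coord : ExpCoord V
  nilpotent : Group.IsNilpotent V
  T : V ≃ₗ[ℝ] V
  T_mul : ∀ x y, T (x * y) = T x * T y
  b : V
  Γ : Subgroup V
  T_Γ : ∀ x, T x ∈ Γ ↔ x ∈ Γ
  discrete : ∃ r > 0, ∀ γ ∈ Γ, ‖γ‖ < r → γ = 1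
  cocompact : ∃ R : ℝ, ∀ x, ∃ γ ∈ Γ, ‖γ * x‖ ≤ R

/-- `F` induces a continuous map `h` of the nilmanifold `Γ \ V` to `X` such that
`h (T x * b) = g (h x)` for all `x`. -/
def AffSemi {V X : Type*} [NormedAddCommGroup V] [NormedSpace ℝ V] [Group V] [TopologicalSpace X]
    (D : NilMap V) (g : X → X) (F : V → X) : Prop :=
  Continuous F ∧ (∀ γ ∈ D.Γ, ∀ x, F (γ * x) = F x) ∧ ∀ x, F (D.T x * D.b) = g (F x)

/-- `x ↦ p x * c` is an affine surjection of nilmanifolds that carries the affine diffeomorphism `D`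
to the hyperbolic automorphism `D'`: `p` is a surjective homomorphism of Lie groups (a linear map in
exponential coordinates) with `p T = T' p`, `p Γ = Γ'` and `p b * c = T' c`. -/
def AffQuot {V V' : Type*} [NormedAddCommGroup V] [NormedSpace ℝ V] [Group V]
    [NormedAddCommGroup V'] [NormedSpace ℝ V'] [Group V'] (D : NilMap V) (D' : NilAut V')
    (p : V →ₗ[ℝ] V') (c : V') : Prop :=
  Function.Surjective p ∧ (∀ x y, p (x * y) = p x * p y) ∧ (∀ x, p (D.T x) = D'.T (p x)) ∧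
    p D.b * c = D'.T c ∧ ∀ y, y ∈ D'.Γ ↔ ∃ γ ∈ D.Γ, p γ = y

/-- a nilmanifold map as a group with a central series -/
theorem NilMap.ng {V : Type u} [NormedAddCommGroup V] [NormedSpace ℝ V] [FiniteDimensional ℝ V]
    [Group V] (D : NilMap V) : ∃ (B : NG V) (R : ℝ), B.T = D.T ∧
    ∀ i, ∀ x ∈ B.W i, ∃ γ ∈ D.Γ, γ ∈ B.W i ∧ ‖γ * x‖ ≤ R := by
  obtain ⟨B₀, hB₀⟩ := nb D.coord D.nilpotent D.T D.T_mul
  obtain ⟨R₀, hR₀⟩ := D.cocompact
  obtain ⟨n, W, R, h1, h2, h3⟩ := malcev _ V B₀ D.coord D.Γ D.discrete R₀ hR₀ rfl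
  rw [hB₀] at h3
  have hid := D.coord.ideals n W h2 (fun i => (h3 i).1) (fun i => (h3 i).2.1)
  exact ⟨{ cmul := D.coord.cont
           line := D.coord.line
           acom := fun K hK x y h => D.coord.acom K hK x y h
           T := D.T
           Tmul := D.T_mul
           n := n
           W := W
           W0 := h1
           Wn := h2
           Wanti := fun i => (h3 i).1
           Wid := hid
           Wcom := fun i => (h3 i).2.1
           WT := fun i => (h3 i).2.2.1 }, R, rfl, fun i => (h3 i).2.2.2⟩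

/-- the structure theorem for the data `ND` -/
theorem nd_final {Y : Type v} [MetricSpace Y] {V : Type u} [NormedAddCommGroup V]
    [NormedSpace ℝ V] [FiniteDimensional ℝ V] [Group V] (N : ND V Y) (E : ExpCoord V)
    (hn : Group.IsNilpotent V) :
    ∃ (V' : Type u) (_ : NormedAddCommGroup V') (_ : NormedSpace ℝ V')
      (_ : FiniteDimensional ℝ V') (_ : Group V') (A : NilAut V') (p : V →ₗ[ℝ] V')
      (F' : V' → Y), Function.Surjective p ∧ (∀ x y, p (x * y) = p x * p y) ∧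
      (∀ x, p (N.T x) = A.T (p x)) ∧ (∀ y, y ∈ A.Γ ↔ ∃ γ ∈ N.Γ, p γ = y) ∧ Semi A N.g F' ∧
      (∀ x, N.F x = F' (p x)) ∧ BddToOne A F' := by
  obtain ⟨V', i1, i2, i3, i4, D', m, ρ, hρ, hinj⟩ :=
    ND.final Pool.Agent.D0H98.NIL.t_LIN2 Pool.Agent.D0H98.NIL.t_LIN4
      (Pool.Agent.D0H25.NIL.split Pool.Agent.D0H98.NIL.t_LIN2) _ V N rfl
  have hcoord : ExpCoord V' := E.push D'.toNB m.p m.surj m.mul
  have hm1 : m.p 1 = 1 := by rw [N.toNB.one_eq, map_zero, D'.toNB.one_eq]
  have hnil : Group.IsNilpotent V' :=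
    Group.nilpotent_of_surjective (⟨⟨m.p, hm1⟩, m.mul⟩ : V →* V') m.surj
  have hcoc0 : ∀ x, ∃ γ ∈ D'.Γ, ‖γ * x‖ ≤ D'.R := fun x => by
    obtain ⟨γ, hγ, -, hn⟩ := D'.coc 0 x (by rw [D'.W0]; trivial)
    exact ⟨γ, hγ, hn⟩
  let A : NilAut V' :=
    { coord := hcoord
      nilpotent := hnil
      T := D'.T
      T_mul := D'.Tmul
      hyp := hyp_of D'.H
      Γ := D'.Γ
      T_Γ := fun x => ⟨fun h => by
        have := D'.TΓ' _ h
        rwa [D'.T.symm_apply_apply] at this, D'.TΓ x⟩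
      discrete := by
        refine ⟨ρ, hρ, fun γ hγ hn => ?_⟩
        rw [D'.toNB.one_eq]
        refine hinj 1 γ hn ?_
        rw [one_mul, ← D'.per γ hγ 1, mul_one]
      cocompact := ⟨D'.R, hcoc0⟩ }
  refine ⟨V', i1, i2, i3, i4, A, m.p, D'.F, m.surj, m.mul, m.T, m.Γ,
    ⟨D'.cont, D'.per, fun x => ?_⟩, fun x => (m.F x).symm, ⟨ρ, hρ, fun x v hv h => ?_⟩, ?_⟩
  · have h1 := D'.equi x
    rw [m.g] at h1
    exact h1
  · rw [D'.toNB.one_eq]
    exact hinj x v hv h
  · exact bdd_fib hcoord D'.Γ D'.R hcoc0 D'.F D'.per ρ hρ hinj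

/-- **Structure of the expansive factors of affine nilmanifold diffeomorphisms.** -/
theorem aff_structure {Y : Type v} [TopologicalSpace Y] [CompactSpace Y]
    [TopologicalSpace.MetrizableSpace Y] (g : Y ≃ₜ Y) (hg : Expansive g) {V : Type u}
    [NormedAddCommGroup V] [NormedSpace ℝ V] [FiniteDimensional ℝ V] [Group V] (D : NilMap V)
    (F : V → Y) (hF : AffSemi D g F) :
    ∃ (V' : Type u) (_ : NormedAddCommGroup V') (_ : NormedSpace ℝ V')
      (_ : FiniteDimensional ℝ V') (_ : Group V') (D' : NilAut V') (p : V →ₗ[ℝ] V') (c : V')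
      (F' : V' → Y), AffQuot D D' p c ∧ Semi D' g F' ∧ (∀ x, F x = F' (p x * c)) ∧
        BddToOne D' F' := by
  let _ : MetricSpace Y := TopologicalSpace.metrizableSpaceMetric Y
  obtain ⟨ε, hε, hexp⟩ := Pool.Agent.D0H26.Fac.exists_eps hg
  obtain ⟨B, R, hBT, hcoc⟩ := D.ng
  obtain ⟨hF1, hF2, hF3⟩ := hF
  let G : GD V Y :=
    { toNG := B
      E := D.coord
      b := D.b
      Γ := D.Γ
      TΓ := fun γ hγ => by rw [hBT]; exact (D.T_Γ γ).2 hγ
      TΓ' := fun γ hγ => by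
        rw [← D.T_Γ, ← hBT, B.T.apply_symm_apply]
        exact hγ
      R := R
      coc := hcoc
      g := g
      F := F
      cont := hF1
      per := hF2
      equi := fun x => by rw [hBT, hF3]
      ε := ε
      hε := hε
      exp := hexp }
  obtain ⟨V', i1, i2, i3, i4, D', p, a1, a2, a3, a4, a5, a6, a7, S, hS, hH⟩ :=
    reduce_all _ V G rfl
  obtain ⟨y, hy, ⟨H⟩⟩ := exists_fix D' S hS hH
  have hp1 : p 1 = 1 := by
    have h := a2 1 1
    rw [mul_one] at h
    exact left_eq_mul.1 h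
  have hnil : Group.IsNilpotent V' := by
    have := D.nilpotent
    exact Group.nilpotent_of_surjective (⟨⟨p, hp1⟩, a2⟩ : V →* V') a1
  let N : ND V' Y :=
    { cmul := D'.cmul
      line := D'.line
      acom := D'.acom
      T := D'.T
      Tmul := D'.Tmul
      H := H
      n := D'.n
      W := D'.W
      W0 := D'.W0
      Wn := D'.Wn
      Wanti := D'.Wanti
      Wid := D'.Wid
      Wcom := D'.Wcom
      WT := D'.WT
      Γ := D'.Γ
      TΓ := D'.TΓ
      TΓ' := D'.TΓ'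
      R := D'.R
      coc := D'.coc
      g := D'.g
      F := fun x => D'.F (x * y)
      cont := D'.cont.comp (D'.cmul.comp (continuous_id.prodMk continuous_const))
      per := fun γ hγ x => by
        show D'.F (γ * x * y) = D'.F (x * y)
        rw [mul_assoc, D'.per γ hγ]
      equi := fun x => by
        show D'.F (D'.T x * y) = D'.g (D'.F (x * y))
        rw [← D'.equi, D'.Tmul, mul_assoc, hy]
      ε := D'.ε
      hε := D'.hε
      exp := D'.exp }
  obtain ⟨V'', j1, j2, j3, j4, A, q, F', b1, b2, b3, b4, b5, b6, b7⟩ := nd_final N D'.E hnil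
  have hg' : D'.g = g := a6
  have hTG : ∀ x, G.T x = D.T x := fun x => by
    show B.T x = D.T x
    rw [hBT]
  refine ⟨V'', j1, j2, j3, j4, A, q ∘ₗ p, q y⁻¹, F', ⟨b1.comp a1, fun x z => ?_, fun x => ?_, ?_,
    fun z => ?_⟩, ?_, fun x => ?_, b7⟩
  · show q (p (x * z)) = q (p x) * q (p z)
    rw [a2, b2]
  · show q (p (D.T x)) = A.T (q (p x))
    rw [← hTG, a3]
    exact b3 (p x)
  · show q (p D.b) * q y⁻¹ = A.T (q y⁻¹)
    have h1 : p D.b = D'.b := a4
    have h2 : D'.b * y⁻¹ = D'.T y⁻¹ := by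
      rw [D'.toNG.T_inv]
      conv_lhs => rw [← hy]
      group
    rw [h1, ← b2, h2]
    exact b3 y⁻¹
  · rw [b4]
    constructor
    · rintro ⟨γ', hγ', rfl⟩
      obtain ⟨γ, hγ, rfl⟩ := (a7 _).1 hγ'
      exact ⟨γ, hγ, rfl⟩
    · rintro ⟨γ, hγ, rfl⟩
      exact ⟨p γ, (a7 _).2 ⟨γ, hγ, rfl⟩, rfl⟩
  · have h1 : N.g = g := hg'
    rw [h1] at b5
    exact b5
  · have h1 := b6 (p x * y⁻¹)
    have h2 : N.F (p x * y⁻¹) = D'.F (p x) := by
      show D'.F (p x * y⁻¹ * y) = D'.F (p x)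
      rw [inv_mul_cancel_right]
    rw [h2, a5, b2] at h1
    exact h1

end Pool.Agent.D0H26.Gen
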