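import Pool.Agent.D0H26.Gen.Frink
import Pool.Agent.D0H26.Gen.Main
import Pool.Agent.D0H26.Nilm.Pow

/-!
# The class of systems built from affine diffeomorphisms of nilmanifolds
-/

set_option autoImplicit false
set_option linter.unusedSectionVars false

open Filter Topology Set Metric

namespace Pool.Agent.D0H26.Gen

open Pool.Agent.D0H26.Nil (ExpCoord)
open Pool.Agent.D0H26.Nilm
open Pool.Agent.TH289.K (Expansive)

universe u v w

/-- `g` is a topological factor of an affine diffeomorphism of a compact nilmanifold. -/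
def AffineFactor {X : Type v} [TopologicalSpace X] (g : X → X) : Prop :=
  ∃ (V : Type u) (_ : NormedAddCommGroup V) (_ : NormedSpace ℝ V) (_ : FiniteDimensional ℝ V)
    (_ : Group V) (D : NilMap V) (F : V → X), AffSemi D g F ∧ Function.Surjective F

/-- The smallest class of homeomorphisms of compact Hausdorff spaces that contains the affine
diffeomorphisms of compact nilmanifolds (and their factors) and is closed under: factors; roots;
extensions with connected fibres of entropy zero; inverse limits (of sequences). -/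
inductive NilClass : ∀ (X : Type v) [TopologicalSpace X], (X ≃ₜ X) → Prop
  | nil (X : Type v) [TopologicalSpace X] [CompactSpace X] [T2Space X] (S : X ≃ₜ X)
      (h : AffineFactor.{u} S) : NilClass X S
  | factor (X W : Type v) [TopologicalSpace X] [TopologicalSpace W] [CompactSpace W] [T2Space W]
      (S : X ≃ₜ X) (R : W ≃ₜ W) (q : X → W) (h : NilClass X S) (hc : Continuous q)
      (hs : Function.Surjective q) (hq : ∀ x, q (S x) = R (q x)) : NilClass W R
  | root (X : Type v) [TopologicalSpace X] (S T : X ≃ₜ X) (n : ℕ) (hn : 1 ≤ n)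
      (hT : ∀ x, T x = S^[n] x) (h : NilClass X T) : NilClass X S
  | ext (X W : Type v) [TopologicalSpace X] [CompactSpace X] [T2Space X] [TopologicalSpace W]
      [T2Space W] (S : X ≃ₜ X) (R : W ≃ₜ W) (q : X → W) (h : NilClass W R) (hc : Continuous q)
      (hs : Function.Surjective q) (hq : ∀ x, q (S x) = R (q x))
      (hconn : ∀ w, IsConnected (q ⁻¹' {w})) (hz : ∀ w, ZeroEntropyOn S (q ⁻¹' {w})) :
      NilClass X S
  | lim (X : Type v) [TopologicalSpace X] [CompactSpace X] [T2Space X] (S : X ≃ₜ X)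
      (W : ℕ → Type v) [∀ i, TopologicalSpace (W i)] [∀ i, T2Space (W i)] (R : ∀ i, W i ≃ₜ W i)
      (q : ∀ i, X → W i) (h : ∀ i, NilClass (W i) (R i)) (hc : ∀ i, Continuous (q i))
      (hs : ∀ i, Function.Surjective (q i)) (hq : ∀ i x, q i (S x) = R i (q i x))
      (hm : ∀ i x y, q (i + 1) x = q (i + 1) y → q i x = q i y)
      (hsep : ∀ x y, (∀ i, q i x = q i y) → x = y) : NilClass X S

/-- maps constant on the fibres descend -/
theorem descend {X W Y : Type*} [TopologicalSpace X] [CompactSpace X] [TopologicalSpace W]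
    [T2Space W] [TopologicalSpace Y] (q : X → W) (hq : Continuous q)
    (hs : Function.Surjective q) (F : X → Y) (hF : Continuous F)
    (hc : ∀ x x', q x = q x' → F x = F x') : ∃ F' : W → Y, Continuous F' ∧ ∀ x, F' (q x) = F x := by
  have h1 : ∀ x, F (Function.surjInv hs (q x)) = F x := fun x =>
    hc _ _ (Function.surjInv_eq hs (q x))
  refine ⟨fun w => F (Function.surjInv hs w), ?_, h1⟩
  have hQ : Topology.IsQuotientMap q := hq.isClosedMap.isQuotientMap hq hs
  rw [hQ.continuous_iff]
  have e : (fun w => F (Function.surjInv hs w)) ∘ q = F := funext h1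
  rw [e]
  exact hF

theorem semi_symm {X Y : Type*} [TopologicalSpace X] [TopologicalSpace Y] {S : X ≃ₜ X}
    {g : Y ≃ₜ Y} {F : X → Y} (h : ∀ x, F (S x) = g (F x)) (x : X) :
    F (S.symm x) = g.symm (F x) := by
  rw [eq_comm, g.symm_apply_eq, ← h, S.apply_symm_apply]

/-- expansive factors of inverse limits are factors of a finite stage -/
theorem stage {Y : Type*} [MetricSpace Y] (g : Y ≃ₜ Y) (ε : ℝ)
    (hexp : ∀ a b, (∀ n : ℕ, dist (g^[n] a) (g^[n] b) ≤ ε) →
    (∀ n : ℕ, dist (g.symm^[n] a) (g.symm^[n] b) ≤ ε) → a = b) (hε : 0 < ε)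
    {X : Type*} [TopologicalSpace X] [CompactSpace X] (S : X ≃ₜ X) (W : ℕ → Type*)
    [∀ i, TopologicalSpace (W i)] [∀ i, T2Space (W i)] (R : ∀ i, W i ≃ₜ W i)
    (q : ∀ i, X → W i) (hc : ∀ i, Continuous (q i)) (hq : ∀ i x, q i (S x) = R i (q i x))
    (hm : ∀ i x y, q (i + 1) x = q (i + 1) y → q i x = q i y)
    (hsep : ∀ x y, (∀ i, q i x = q i y) → x = y) (F : X → Y) (hF : Continuous F)
    (hS : ∀ x, F (S x) = g (F x)) : ∃ i, ∀ x x', q i x = q i x' → F x = F x' := by
  by_contra hcon
  push Not at hcon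
  obtain ⟨C, hC⟩ : ∃ C : ℕ → Set (X × X), ∀ k, C k = {p | q k p.1 = q k p.2 ∧
      ε ≤ dist (F p.1) (F p.2)} := ⟨_, fun k => rfl⟩
  have hcl : ∀ k, IsClosed (C k) := by
    intro k
    rw [hC]
    exact (isClosed_eq ((hc k).comp continuous_fst) ((hc k).comp continuous_snd)).inter
      (isClosed_le continuous_const ((hF.comp continuous_fst).dist (hF.comp continuous_snd)))
  have hne : ∀ k, (C k).Nonempty := by
    intro k
    obtain ⟨x, x', h1, h2⟩ := hcon k
    by_contra hemp
    rw [not_nonempty_iff_eq_empty] at hemp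
    refine h2 (hexp _ _ (fun n => ?_) (fun n => ?_))
    · by_contra hlt
      push Not at hlt
      have e1 : ∀ z, F (S^[n] z) = g^[n] (F z) := fun z =>
        (show Function.Semiconj F S g from hS).iterate_right n z
      have e2 : ∀ z, q k (S^[n] z) = (R k)^[n] (q k z) := fun z =>
        (show Function.Semiconj (q k) S (R k) from hq k).iterate_right n z
      have : (S^[n] x, S^[n] x') ∈ C k := by
        rw [hC]
        refine ⟨?_, ?_⟩
        · show q k (S^[n] x) = q k (S^[n] x')
          rw [e2, e2, h1]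
        · show ε ≤ dist (F (S^[n] x)) (F (S^[n] x'))
          rw [e1, e1]
          exact hlt.le
      rw [hemp] at this
      exact this
    · by_contra hlt
      push Not at hlt
      have e1 : ∀ z, F (S.symm^[n] z) = g.symm^[n] (F z) := fun z =>
        (show Function.Semiconj F S.symm g.symm from semi_symm hS).iterate_right n z
      have e2 : ∀ z, q k (S.symm^[n] z) = (R k).symm^[n] (q k z) := fun z =>
        (show Function.Semiconj (q k) S.symm (R k).symm from semi_symm (hq k)).iterate_right n z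
      have : (S.symm^[n] x, S.symm^[n] x') ∈ C k := by
        rw [hC]
        refine ⟨?_, ?_⟩
        · show q k (S.symm^[n] x) = q k (S.symm^[n] x')
          rw [e2, e2, h1]
        · show ε ≤ dist (F (S.symm^[n] x)) (F (S.symm^[n] x'))
          rw [e1, e1]
          exact hlt.le
      rw [hemp] at this
      exact this
  have hanti : ∀ k, C (k + 1) ⊆ C k := by
    intro k p hp
    rw [hC] at hp ⊢
    exact ⟨hm _ _ _ hp.1, hp.2⟩
  obtain ⟨p, hp⟩ := IsCompact.nonempty_iInter_of_sequence_nonempty_isCompact_isClosed C hanti hne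
    ((hcl 0).isCompact) hcl
  rw [mem_iInter] at hp
  have h1 : p.1 = p.2 := hsep _ _ fun i => by
    have := hp i
    rw [hC] at this
    exact this.1
  have h2 := hp 0
  rw [hC] at h2
  have h3 : ε ≤ dist (F p.1) (F p.2) := h2.2
  rw [h1, dist_self] at h3
  linarith

/-- **Expansive factors of systems of the class.** -/
theorem NilClass.factor_expansive {X : Type v} [TopologicalSpace X] {S : X ≃ₜ X}
    (h : NilClass.{u, v} X S) {Y : Type w} [TopologicalSpace Y] [CompactSpace Y]
    [TopologicalSpace.MetrizableSpace Y] : ∀ (g : Y ≃ₜ Y), Expansive g → ∀ (F : X → Y),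
    Continuous F → Function.Surjective F → (∀ x, F (S x) = g (F x)) →
    ∃ n : ℕ, 1 ≤ n ∧ AffineFactor.{u} (g^[n]) := by
  induction h with
  | nil X S h =>
    intro g _ F hF hFs hS
    obtain ⟨V, i1, i2, i3, i4, D, F₀, ⟨h1, h2, h3⟩, h4⟩ := h
    refine ⟨1, le_rfl, V, i1, i2, i3, i4, D, F ∘ F₀, ⟨hF.comp h1, fun γ hγ x => ?_, fun x => ?_⟩,
      hFs.comp h4⟩
    · show F (F₀ (γ * x)) = F (F₀ x)
      rw [h2 γ hγ]
    · show F (F₀ (D.T x * D.b)) = g (F (F₀ x))
      rw [h3, hS]
  | factor X W S R q h hc hs hq ih =>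
    intro g hg F hF hFs hS
    exact ih g hg (F ∘ q) (hF.comp hc) (hFs.comp hs) fun x => by
      show F (q (S x)) = g (F (q x))
      rw [hq, hS]
  | root X S T n hn hT h ih =>
    intro g hg F hF hFs hS
    obtain ⟨m, hm, h1⟩ := ih (powH g n) (expansive_pow hg n hn) F hF hFs fun x => by
      show F (T x) = g^[n] (F x)
      rw [hT]
      exact (show Function.Semiconj F S g from hS).iterate_right n x
    refine ⟨n * m, Nat.mul_pos (by omega) (by omega), ?_⟩
    have e : (powH g n : Y → Y)^[m] = g^[n * m] := (Function.iterate_mul (g : Y → Y) n m).symm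
    rw [← e]
    exact h1
  | ext X W S R q h hc hs hq hconn hz ih =>
    intro g hg F hF hFs hS
    letI : MetricSpace Y := TopologicalSpace.metrizableSpaceMetric Y
    obtain ⟨ε, hε, hexp⟩ := Pool.Agent.D0H26.Fac.exists_eps hg
    obtain ⟨F', hF', hF'q⟩ := descend q hc hs F hF fun x x' hxx =>
      collapse hε hexp S F hF hS (q ⁻¹' {q x}) (hconn _).isPreconnected (hz _) x x' rfl hxx.symm
    refine ih g hg F' hF' (fun y => ?_) fun w => ?_
    · obtain ⟨x, rfl⟩ := hFs y
      exact ⟨q x, hF'q x⟩
    · obtain ⟨x, rfl⟩ := hs w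
      rw [← hq, hF'q, hF'q, hS]
  | lim X S W R q h hc hs hq hm hsep ih =>
    intro g hg F hF hFs hS
    letI : MetricSpace Y := TopologicalSpace.metrizableSpaceMetric Y
    obtain ⟨ε, hε, hexp⟩ := Pool.Agent.D0H26.Fac.exists_eps hg
    obtain ⟨i, hi⟩ := stage g ε hexp hε S W R q hc hq hm hsep F hF hS
    obtain ⟨F', hF', hF'q⟩ := descend (q i) (hc i) (hs i) F hF hi
    refine ih i g hg F' hF' (fun y => ?_) fun w => ?_
    · obtain ⟨x, rfl⟩ := hFs y
      exact ⟨q i x, hF'q x⟩
    · obtain ⟨x, rfl⟩ := hs i w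
      rw [← hq, hF'q, hF'q, hS]

end Pool.Agent.D0H26.Gen
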