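import Mathlib

/-!
# Expansive homeomorphisms collapse connected sets of entropy zero
-/

set_option autoImplicit false

open Filter Topology Set Metric MeasureTheory
open scoped NNReal ENNReal

namespace Pool.Agent.D0H26.Gen

/-- The set `A` has entropy zero for the homeomorphism `S`: for every neighbourhood `U` of the
diagonal and every `a > 1` there are arbitrarily large `n` such that `A` is spanned by at most `aⁿ`
points `e` up to `U`-closeness during the times `-n, ..., n`. -/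
def ZeroEntropyOn {X : Type*} [TopologicalSpace X] (S : X ≃ₜ X) (A : Set X) : Prop :=
  ∀ U ∈ 𝓝ˢ (diagonal X), ∀ a : ℝ, 1 < a → ∃ᶠ n : ℕ in atTop, ∃ E : Finset X,
    (E.card : ℝ) ≤ a ^ n ∧ ∀ x ∈ A, ∃ e ∈ E, ∀ i ≤ n,
      (S^[i] e, S^[i] x) ∈ U ∧ (S.symm^[i] e, S.symm^[i] x) ∈ U

/-- the metrization lemma -/
theorem exists_metric {Y : Type*} (q : Y → Y → ℝ≥0) (h1 : ∀ a, q a a = 0)
    (h2 : ∀ a b, q a b = q b a)
    (h3 : ∀ a b c e, q a e ≤ 2 * max (q a b) (max (q b c) (q c e))) :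
    ∃ D : Y → Y → ℝ, (∀ a, D a a = 0) ∧ (∀ a b, D a b = D b a) ∧
      (∀ a b c, D a c ≤ D a b + D b c) ∧ (∀ a b, D a b ≤ q a b) ∧
      ∀ a b, (q a b : ℝ) ≤ 2 * D a b := by
  letI P : PseudoMetricSpace Y := PseudoMetricSpace.ofPreNNDist q h1 h2
  exact ⟨fun a b => dist a b, fun a => dist_self a, fun a b => dist_comm a b,
    fun a b c => dist_triangle a b c,
    fun a b => PseudoMetricSpace.dist_ofPreNNDist_le _ _ _ a b,
    fun a b => PseudoMetricSpace.le_two_mul_dist_ofPreNNDist _ _ _ h3 a b⟩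

section
variable {Y : Type*} [MetricSpace Y] [CompactSpace Y] (g : Y ≃ₜ Y) (ε : ℝ)

/-- closeness for the times `-n M, ..., n M` -/
def Cl (M n : ℕ) (a b : Y) : Prop :=
  ∀ i ≤ n * M, dist (g^[i] a) (g^[i] b) ≤ ε ∧ dist (g.symm^[i] a) (g.symm^[i] b) ≤ ε

variable {g ε}

theorem Cl.symm' {M n : ℕ} {a b : Y} (h : Cl g ε M n a b) : Cl g ε M n b a := fun i hi => by
  rw [dist_comm, dist_comm (g.symm^[i] b)]
  exact h i hi

theorem Cl.mono {M m n : ℕ} {a b : Y} (h : Cl g ε M n a b) (hmn : m ≤ n) : Cl g ε M m a b :=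
  fun i hi => h i (hi.trans (Nat.mul_le_mul_right _ hmn))

/-- uniform expansivity -/
theorem exists_M (hε : 0 < ε) (hexp : ∀ a b, (∀ n : ℕ, dist (g^[n] a) (g^[n] b) ≤ ε) →
    (∀ n : ℕ, dist (g.symm^[n] a) (g.symm^[n] b) ≤ ε) → a = b) :
    ∃ M : ℕ, 1 ≤ M ∧ ∀ a b : Y, Cl g ε M 1 a b → dist a b ≤ ε / 3 := by
  by_contra hcon
  push Not at hcon
  obtain ⟨C, hC⟩ : ∃ C : ℕ → Set (Y × Y), ∀ k, C k = {p | ε / 3 ≤ dist p.1 p.2 ∧ ∀ i ≤ k,
      dist (g^[i] p.1) (g^[i] p.2) ≤ ε ∧ dist (g.symm^[i] p.1) (g.symm^[i] p.2) ≤ ε} :=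
    ⟨_, fun k => rfl⟩
  have hcl : ∀ k, IsClosed (C k) := by
    intro k
    rw [hC]
    have e : {p : Y × Y | ε / 3 ≤ dist p.1 p.2 ∧ ∀ i ≤ k,
        dist (g^[i] p.1) (g^[i] p.2) ≤ ε ∧ dist (g.symm^[i] p.1) (g.symm^[i] p.2) ≤ ε} =
        {p | ε / 3 ≤ dist p.1 p.2} ∩ ⋂ i : ℕ, ⋂ _ : i ≤ k,
          {p | dist (g^[i] p.1) (g^[i] p.2) ≤ ε ∧ dist (g.symm^[i] p.1) (g.symm^[i] p.2) ≤ ε} := by
      ext p
      simp
    rw [e]
    refine (isClosed_le continuous_const continuous_dist).inter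
      (isClosed_iInter fun i => isClosed_iInter fun _ => ?_)
    exact (isClosed_le (((g.continuous.iterate i).comp continuous_fst).dist
      ((g.continuous.iterate i).comp continuous_snd)) continuous_const).inter
      (isClosed_le (((g.symm.continuous.iterate i).comp continuous_fst).dist
      ((g.symm.continuous.iterate i).comp continuous_snd)) continuous_const)
  have hne : ∀ k, (C k).Nonempty := by
    intro k
    obtain ⟨a, b, h1, h2⟩ := hcon (k + 1) (by omega)
    refine ⟨(a, b), ?_⟩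
    rw [hC]
    exact ⟨h2.le, fun i hi => h1 i (by omega)⟩
  have hanti : ∀ k, C (k + 1) ⊆ C k := by
    intro k p hp
    rw [hC] at hp ⊢
    exact ⟨hp.1, fun i hi => hp.2 i (by omega)⟩
  obtain ⟨p, hp⟩ := IsCompact.nonempty_iInter_of_sequence_nonempty_isCompact_isClosed C hanti hne
    ((hcl 0).isCompact) hcl
  rw [mem_iInter] at hp
  have hp' : ∀ k, ε / 3 ≤ dist p.1 p.2 ∧ ∀ i ≤ k,
      dist (g^[i] p.1) (g^[i] p.2) ≤ ε ∧ dist (g.symm^[i] p.1) (g.symm^[i] p.2) ≤ ε := by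
    intro k
    have := hp k
    rwa [hC] at this
  have h1 : p.1 = p.2 := hexp _ _ (fun n => ((hp' n).2 n le_rfl).1) fun n => ((hp' n).2 n le_rfl).2
  have h2 := (hp' 0).1
  rw [h1, dist_self] at h2
  linarith

theorem iter_sub (i j : ℕ) (h : j ≤ i) (a : Y) : g.symm^[j] (g^[i] a) = g^[i - j] a := by
  obtain ⟨k, rfl⟩ : ∃ k, i = j + k := ⟨i - j, by omega⟩
  rw [Function.iterate_add_apply, Function.LeftInverse.iterate g.symm_apply_apply j]
  congr 1
  omega

theorem iter_sub' (i j : ℕ) (h : i ≤ j) (a : Y) : g.symm^[j] (g^[i] a) = g.symm^[j - i] a := by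
  obtain ⟨k, rfl⟩ : ∃ k, j = k + i := ⟨j - i, by omega⟩
  rw [Function.iterate_add_apply, Function.LeftInverse.iterate g.symm_apply_apply i]
  congr 1
  omega

theorem iter_sub2 (i j : ℕ) (h : j ≤ i) (a : Y) : g^[j] (g.symm^[i] a) = g.symm^[i - j] a := by
  obtain ⟨k, rfl⟩ : ∃ k, i = j + k := ⟨i - j, by omega⟩
  rw [Function.iterate_add_apply, Function.LeftInverse.iterate g.apply_symm_apply j]
  congr 1
  omega

theorem iter_sub2' (i j : ℕ) (h : i ≤ j) (a : Y) : g^[j] (g.symm^[i] a) = g^[j - i] a := by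
  obtain ⟨k, rfl⟩ : ∃ k, j = k + i := ⟨j - i, by omega⟩
  rw [Function.iterate_add_apply, Function.LeftInverse.iterate g.apply_symm_apply i]
  congr 1
  omega

theorem Cl.step {M n : ℕ} (hM : ∀ a b : Y, Cl g ε M 1 a b → dist a b ≤ ε / 3) {a b : Y}
    (h : Cl g ε M (n + 1) a b) (i : ℕ) (hi : i ≤ n * M) :
    dist (g^[i] a) (g^[i] b) ≤ ε / 3 ∧ dist (g.symm^[i] a) (g.symm^[i] b) ≤ ε / 3 := by
  have hbd : ∀ j, j ≤ 1 * M → i + j ≤ (n + 1) * M := by
    intro j hj
    rw [Nat.add_mul]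
    omega
  constructor
  · refine hM _ _ fun j hj => ⟨?_, ?_⟩
    · rw [← Function.iterate_add_apply, ← Function.iterate_add_apply]
      exact (h _ (by have := hbd j hj; omega)).1
    · rcases le_total j i with hji | hji
      · rw [iter_sub i j hji, iter_sub i j hji]
        exact (h _ (by have := hbd j hj; omega)).1
      · rw [iter_sub' i j hji, iter_sub' i j hji]
        exact (h _ (by have := hbd j hj; omega)).2
  · refine hM _ _ fun j hj => ⟨?_, ?_⟩
    · rcases le_total j i with hji | hji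
      · rw [iter_sub2 i j hji, iter_sub2 i j hji]
        exact (h _ (by have := hbd j hj; omega)).2
      · rw [iter_sub2' i j hji, iter_sub2' i j hji]
        exact (h _ (by have := hbd j hj; omega)).1
    · rw [← Function.iterate_add_apply, ← Function.iterate_add_apply]
      exact (h _ (by have := hbd j hj; omega)).2

theorem Cl.trans3 {M n : ℕ} (hM : ∀ a b : Y, Cl g ε M 1 a b → dist a b ≤ ε / 3) {a b c e : Y}
    (h1 : Cl g ε M (n + 1) a b) (h2 : Cl g ε M (n + 1) b c) (h3 : Cl g ε M (n + 1) c e) :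
    Cl g ε M n a e := by
  intro i hi
  have k1 := h1.step hM i hi
  have k2 := h2.step hM i hi
  have k3 := h3.step hM i hi
  constructor
  · have t1 := dist_triangle4 (g^[i] a) (g^[i] b) (g^[i] c) (g^[i] e)
    linarith [k1.1, k2.1, k3.1]
  · have t1 := dist_triangle4 (g.symm^[i] a) (g.symm^[i] b) (g.symm^[i] c) (g.symm^[i] e)
    linarith [k1.2, k2.2, k3.2]

variable (g ε)

open Classical in
/-- the quasi-metric of the times of separation -/
noncomputable def qd (M : ℕ) (a b : Y) : ℝ≥0 :=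
  if a = b then 0 else (1 / 2) ^ (sInf {n : ℕ | ¬ Cl g ε M n a b})

variable {g ε}

theorem qd_self (M : ℕ) (a : Y) : qd g ε M a a = 0 := by
  rw [qd, if_pos rfl]

theorem qd_comm (M : ℕ) (a b : Y) : qd g ε M a b = qd g ε M b a := by
  have e : {n : ℕ | ¬ Cl g ε M n a b} = {n : ℕ | ¬ Cl g ε M n b a} := by
    ext n
    exact not_congr ⟨Cl.symm', Cl.symm'⟩
  rw [qd, qd, e]
  by_cases h : a = b
  · rw [if_pos h, if_pos h.symm]
  · rw [if_neg h, if_neg (Ne.symm h)]

theorem qd_zero {M : ℕ} {a b : Y} (h : qd g ε M a b = 0) : a = b := by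
  by_contra hne
  rw [qd, if_neg hne] at h
  exact pow_ne_zero _ (by norm_num) h

theorem exists_not_cl {M : ℕ} (hM1 : 1 ≤ M)
    (hexp : ∀ a b, (∀ n : ℕ, dist (g^[n] a) (g^[n] b) ≤ ε) →
    (∀ n : ℕ, dist (g.symm^[n] a) (g.symm^[n] b) ≤ ε) → a = b) {a b : Y} (hab : a ≠ b) :
    {n : ℕ | ¬ Cl g ε M n a b}.Nonempty := by
  by_contra hcon
  rw [not_nonempty_iff_eq_empty] at hcon
  have hall : ∀ n, Cl g ε M n a b := by
    intro n
    by_contra h
    have : n ∈ {n : ℕ | ¬ Cl g ε M n a b} := h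
    rw [hcon] at this
    exact this
  exact hab (hexp a b (fun n => (hall n n (Nat.le_mul_of_pos_right n (by omega))).1)
    fun n => (hall n n (Nat.le_mul_of_pos_right n (by omega))).2)

theorem qd_le {M n : ℕ} (hM1 : 1 ≤ M)
    (hexp : ∀ a b, (∀ n : ℕ, dist (g^[n] a) (g^[n] b) ≤ ε) →
    (∀ n : ℕ, dist (g.symm^[n] a) (g.symm^[n] b) ≤ ε) → a = b) {a b : Y}
    (h : Cl g ε M n a b) : qd g ε M a b ≤ (1 / 2) ^ n := by
  by_cases hab : a = b
  · rw [qd, if_pos hab]
    exact zero_le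
  · rw [qd, if_neg hab]
    refine pow_le_pow_of_le_one zero_le (by norm_num) ?_
    have h1 := Nat.sInf_mem (exists_not_cl hM1 hexp hab)
    by_contra hlt
    push Not at hlt
    exact h1 (h.mono hlt.le)

theorem qd_quasi (hε : 0 < ε) {M : ℕ} (hM1 : 1 ≤ M) (hM : ∀ a b : Y, Cl g ε M 1 a b → dist a b ≤ ε / 3)
    (hexp : ∀ a b, (∀ n : ℕ, dist (g^[n] a) (g^[n] b) ≤ ε) →
    (∀ n : ℕ, dist (g.symm^[n] a) (g.symm^[n] b) ≤ ε) → a = b) (a b c e : Y) :
    qd g ε M a e ≤ 2 * max (qd g ε M a b) (max (qd g ε M b c) (qd g ε M c e)) := by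
  by_cases hae : a = e
  · rw [qd, if_pos hae]
    exact zero_le
  obtain ⟨N, hN⟩ : ∃ N, N = sInf {n : ℕ | ¬ Cl g ε M n a e} := ⟨_, rfl⟩
  have hNn : ¬ Cl g ε M N a e := by
    rw [hN]
    exact Nat.sInf_mem (exists_not_cl hM1 hexp hae)
  have hval : qd g ε M a e = (1 / 2) ^ N := by rw [qd, if_neg hae, hN]
  have key : ∀ x y : Y, ¬ Cl g ε M (N + 1) x y → (1 / 2 : ℝ≥0) ^ N ≤ 2 * qd g ε M x y := by
    intro x y hxy
    have hne : x ≠ y := by
      rintro rfl
      apply hxy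
      intro i _
      rw [dist_self, dist_self]
      exact ⟨hε.le, hε.le⟩
    rw [qd, if_neg hne]
    have h1 : sInf {n : ℕ | ¬ Cl g ε M n x y} ≤ N + 1 := Nat.sInf_le hxy
    have h2 : (1 / 2 : ℝ≥0) ^ (N + 1) ≤ (1 / 2) ^ (sInf {n : ℕ | ¬ Cl g ε M n x y}) :=
      pow_le_pow_of_le_one zero_le (by norm_num) h1
    calc (1 / 2 : ℝ≥0) ^ N = 2 * (1 / 2) ^ (N + 1) := by
          rw [pow_succ, mul_comm, mul_assoc]
          norm_num
      _ ≤ 2 * (1 / 2) ^ (sInf {n : ℕ | ¬ Cl g ε M n x y}) := by gcongr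
  rw [hval]
  by_cases h1 : Cl g ε M (N + 1) a b
  · by_cases h2 : Cl g ε M (N + 1) b c
    · by_cases h3 : Cl g ε M (N + 1) c e
      · exact absurd (h1.trans3 hM h2 h3) hNn
      · refine (key _ _ h3).trans (mul_le_mul_of_nonneg_left ?_ zero_le)
        exact (le_max_right _ _).trans (le_max_right _ _)
    · refine (key _ _ h2).trans (mul_le_mul_of_nonneg_left ?_ zero_le)
      exact (le_max_left _ _).trans (le_max_right _ _)
  · exact (key _ _ h1).trans (mul_le_mul_of_nonneg_left (le_max_left _ _) zero_le)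

/-- **Collapsing.**  A factor map to an expansive homeomorphism is constant on the connected sets
of entropy zero. -/
theorem collapse (hε : 0 < ε) (hexp : ∀ a b, (∀ n : ℕ, dist (g^[n] a) (g^[n] b) ≤ ε) →
    (∀ n : ℕ, dist (g.symm^[n] a) (g.symm^[n] b) ≤ ε) → a = b) {X : Type*} [TopologicalSpace X]
    (S : X ≃ₜ X) (F : X → Y) (hF : Continuous F) (hS : ∀ x, F (S x) = g (F x)) (A : Set X)
    (hA : IsPreconnected A) (hz : ZeroEntropyOn S A) (x₀ x₁ : X) (h0 : x₀ ∈ A) (h1 : x₁ ∈ A) :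
    F x₀ = F x₁ := by
  obtain ⟨M, hM1, hM⟩ := exists_M hε hexp
  obtain ⟨D, hDself, hDcomm, hDtri, hDle, hDge⟩ := exists_metric (qd g ε M) (qd_self M)
    (qd_comm M) (qd_quasi hε hM1 hM hexp)
  have hDcl : ∀ n a b, Cl g ε M n a b → D a b ≤ (1 / 2) ^ n := by
    intro n a b h
    refine (hDle a b).trans ?_
    have := qd_le hM1 hexp h
    exact_mod_cast this
  have hSi : ∀ (i : ℕ) x, F (S^[i] x) = g^[i] (F x) := fun i x =>
    (show Function.Semiconj F S g from hS).iterate_right i x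
  have hS' : ∀ x, F (S.symm x) = g.symm (F x) := by
    intro x
    rw [eq_comm, g.symm_apply_eq, ← hS, S.apply_symm_apply]
  have hSi' : ∀ (i : ℕ) x, F (S.symm^[i] x) = g.symm^[i] (F x) := fun i x =>
    (show Function.Semiconj F S.symm g.symm from hS').iterate_right i x
  -- the distance to the first point
  obtain ⟨f, hf⟩ : ∃ f : X → ℝ, ∀ x, f x = D (F x₀) (F x) := ⟨_, fun _ => rfl⟩
  have hfd : ∀ x x', |f x - f x'| ≤ D (F x) (F x') := by
    intro x x'
    rw [hf, hf, abs_le]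
    have t1 := hDtri (F x₀) (F x) (F x')
    have t2 := hDtri (F x₀) (F x') (F x)
    rw [hDcomm (F x') (F x)] at t2
    constructor <;> linarith
  have hfc : Continuous f := by
    rw [continuous_iff_continuousAt]
    intro x
    rw [Metric.continuousAt_iff']
    intro e he
    obtain ⟨n, hn⟩ := exists_pow_lt_of_lt_one he (show (1 / 2 : ℝ) < 1 by norm_num)
    have hnear : ∀ᶠ x' in 𝓝 x, ∀ i ∈ Finset.range (n * M + 1),
        dist (g^[i] (F x)) (g^[i] (F x')) < ε ∧
        dist (g.symm^[i] (F x)) (g.symm^[i] (F x')) < ε := by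
      rw [Filter.eventually_all_finset]
      intro i _
      have c1 : Continuous fun x' => dist (g^[i] (F x)) (g^[i] (F x')) :=
        continuous_const.dist ((g.continuous.iterate i).comp hF)
      have c2 : Continuous fun x' => dist (g.symm^[i] (F x)) (g.symm^[i] (F x')) :=
        continuous_const.dist ((g.symm.continuous.iterate i).comp hF)
      refine (c1.tendsto x |>.eventually_lt_const ?_).and (c2.tendsto x |>.eventually_lt_const ?_)
      · rw [dist_self]; exact hε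
      · rw [dist_self]; exact hε
    filter_upwards [hnear] with x' hx'
    rw [Real.dist_eq]
    refine ((hfd x' x).trans ?_).trans_lt hn
    rw [hDcomm]
    refine hDcl n _ _ fun i hi => ?_
    have := hx' i (Finset.mem_range.2 (by omega))
    exact ⟨this.1.le, this.2.le⟩
  -- the neighbourhood of the diagonal
  have hU : {p : X × X | dist (F p.1) (F p.2) < ε} ∈ 𝓝ˢ (diagonal X) := by
    refine (isOpen_lt ((hF.comp continuous_fst).dist (hF.comp continuous_snd))
      continuous_const).mem_nhdsSet.2 ?_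
    rintro ⟨a, b⟩ hab
    have h2 : a = b := hab
    show dist (F a) (F b) < ε
    rw [h2, dist_self]
    exact hε
  obtain ⟨a, ha⟩ : ∃ a : ℝ, a = (3 / 2 : ℝ) ^ ((M : ℝ)⁻¹) := ⟨_, rfl⟩
  have haM : a ^ M = 3 / 2 := by
    rw [ha]
    exact Real.rpow_inv_natCast_pow (by norm_num) (by omega)
  have ha1 : 1 < a := by
    rw [ha]
    exact Real.one_lt_rpow (by norm_num) (by positivity)
  have hfreq := hz _ hU a ha1
  have hL : ∀ e > 0, f x₁ ≤ e := by
    intro e he
    obtain ⟨k₀, hk₀⟩ := exists_pow_lt_of_lt_one (show 0 < e / 3 by positivity)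
      (show (3 / 4 : ℝ) < 1 by norm_num)
    obtain ⟨n, hn, E, hE, hcov⟩ := (Filter.frequently_atTop.1 hfreq) (k₀ * M)
    obtain ⟨k, hk⟩ : ∃ k, k = n / M := ⟨_, rfl⟩
    have hkM : k * M ≤ n := by rw [hk]; exact Nat.div_mul_le_self n M
    have hnk : n ≤ (k + 1) * M := by
      rw [hk]
      have := Nat.lt_mul_div_succ n (show 0 < M by omega)
      rw [mul_comm]
      exact this.le
    have hk0 : k₀ ≤ k := by
      rw [hk]
      exact (Nat.le_div_iff_mul_le (by omega)).2 hn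
    have hcard : (E.card : ℝ) ≤ (3 / 2) ^ (k + 1) := by
      refine hE.trans ((pow_le_pow_right₀ ha1.le hnk).trans ?_)
      rw [mul_comm, pow_mul, haM]
    have hint : Icc (0 : ℝ) (f x₁) ⊆ ⋃ y ∈ E, Icc (f y - (1 / 2) ^ k) (f y + (1 / 2) ^ k) := by
      have hfx0 : f x₀ = 0 := by rw [hf, hDself]
      have h2 := (hA.image f hfc.continuousOn).Icc_subset ⟨x₀, h0, rfl⟩ ⟨x₁, h1, rfl⟩
      rw [hfx0] at h2
      intro r hr
      obtain ⟨x, hx, rfl⟩ := h2 hr
      obtain ⟨y, hy, hcl⟩ := hcov x hx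
      refine mem_iUnion₂.2 ⟨y, hy, ?_⟩
      have h3 : |f y - f x| ≤ (1 / 2) ^ k := by
        refine (hfd y x).trans (hDcl k _ _ fun i hi => ?_)
        have h4 := hcl i (hi.trans hkM)
        have h5 : dist (F (S^[i] y)) (F (S^[i] x)) < ε := h4.1
        have h6 : dist (F (S.symm^[i] y)) (F (S.symm^[i] x)) < ε := h4.2
        rw [hSi, hSi] at h5
        rw [hSi', hSi'] at h6
        exact ⟨h5.le, h6.le⟩
      rw [abs_le] at h3
      exact ⟨by linarith [h3.1, h3.2], by linarith [h3.1, h3.2]⟩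
    have hvol : ENNReal.ofReal (f x₁) ≤ ENNReal.ofReal (3 * (3 / 4) ^ k) := by
      have hη : (0 : ℝ) ≤ 2 * (1 / 2) ^ k := by positivity
      calc ENNReal.ofReal (f x₁) = volume (Icc (0 : ℝ) (f x₁)) := by
            rw [Real.volume_Icc, sub_zero]
        _ ≤ volume (⋃ y ∈ E, Icc (f y - (1 / 2) ^ k) (f y + (1 / 2) ^ k)) := measure_mono hint
        _ ≤ ∑ y ∈ E, volume (Icc (f y - (1 / 2) ^ k) (f y + (1 / 2) ^ k)) :=
            measure_biUnion_finset_le _ _
        _ = ∑ _y ∈ E, ENNReal.ofReal (2 * (1 / 2) ^ k) := by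
            refine Finset.sum_congr rfl fun y _ => ?_
            rw [Real.volume_Icc]
            congr 1
            ring
        _ = ENNReal.ofReal (E.card * (2 * (1 / 2) ^ k)) := by
            rw [Finset.sum_const, nsmul_eq_mul, ENNReal.ofReal_mul (Nat.cast_nonneg _),
              ENNReal.ofReal_natCast]
        _ ≤ ENNReal.ofReal (3 * (3 / 4) ^ k) := by
            refine ENNReal.ofReal_le_ofReal ((mul_le_mul_of_nonneg_right hcard hη).trans ?_)
            have e1 : (3 / 4 : ℝ) ^ k = (3 / 2) ^ k * (1 / 2) ^ k := by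
              rw [← mul_pow]
              norm_num
            rw [e1, pow_succ]
            exact le_of_eq (by ring)
    have h7 : f x₁ ≤ 3 * (3 / 4) ^ k :=
      (ENNReal.ofReal_le_ofReal_iff (by positivity)).1 hvol
    have h8 : (3 / 4 : ℝ) ^ k ≤ (3 / 4) ^ k₀ :=
      pow_le_pow_of_le_one (by norm_num) (by norm_num) hk0
    linarith
  have hL0 : f x₁ ≤ 0 := le_of_forall_pos_le_add fun e he => by
    have := hL e he
    linarith
  rw [hf] at hL0
  have h9 := hDge (F x₀) (F x₁)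
  have h10 : (qd g ε M (F x₀) (F x₁) : ℝ) ≤ 0 := by linarith
  have h11 : qd g ε M (F x₀) (F x₁) = 0 := by
    have h12 := NNReal.coe_nonneg (qd g ε M (F x₀) (F x₁))
    exact_mod_cast le_antisymm h10 h12
  exact qd_zero h11

end

end Pool.Agent.D0H26.Gen
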