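import Pool.Agent.D0H26.Gen.Red
import Pool.Agent.D0H65.NIL.Hyp
import Pool.Agent.D0H65.NIL.Lang

/-!
# Reduction to hyperbolic automorphisms: the induction
-/

set_option autoImplicit false
set_option linter.unusedSectionVars false

open Filter Topology Set Metric

namespace Pool.Agent.D0H26.Gen

open Pool.Agent.D0H26.Fac (HSp subV)
open Pool.Agent.D0H26.Nil (ExpCoord IsIdeal proj_mul finite_ball symm_mem NB ND)
open Pool.Agent.D0H26.Nilm

universe u v w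

section
variable {V : Type*} [NormedAddCommGroup V] [NormedSpace ℝ V] [FiniteDimensional ℝ V] [Group V]
  {Y : Type*} [MetricSpace Y] {D : GD V Y} {V' : Type*} [NormedAddCommGroup V'] [NormedSpace ℝ V']
  [FiniteDimensional ℝ V'] [Group V'] (Q : QG D.toNG V') (hP : Q.K = D.K)

include hP in
theorem QG.Fq (x : V) : D.F (Q.ι (Q.q x)) = D.F x := by
  have h1 : x = Q.ι (Q.q x) * (x - Q.ι (Q.q x)) := by
    rw [Q.Kc _ (Q.mem x)]
    abel
  have hk := Q.mem x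
  rw [hP] at hk
  have h2 := hk.2 (Q.ι (Q.q x)) 1
  rw [one_smul, ← h1] at h2
  exact h2.symm

/-- the quotient data -/
noncomputable def QG.gd : GD V' Y where
  toNG := Q.nb
  E := push D.E Q.nb Q.q (fun x => ⟨Q.ι x, Q.qι x⟩) Q.mul
  b := Q.q D.b
  Γ := D.Γ.map Q.hom
  TΓ := by
    rintro _ ⟨γ, hγ, rfl⟩
    exact ⟨D.T γ, D.TΓ γ hγ, Q.qT γ⟩
  TΓ' := by
    rintro _ ⟨γ, hγ, rfl⟩
    exact ⟨D.T.symm γ, D.TΓ' γ hγ, Q.qTs γ⟩
  R := ‖LinearMap.toContinuousLinearMap Q.q‖ * D.R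
  coc i := by
    rintro _ ⟨x, hx, rfl⟩
    obtain ⟨γ, hγ, hγi, hn⟩ := D.coc i x hx
    refine ⟨Q.q γ, ⟨γ, hγ, rfl⟩, ⟨γ, hγi, rfl⟩, ?_⟩
    rw [← Q.mul]
    exact (Q.nq _).trans (mul_le_mul_of_nonneg_left hn (norm_nonneg _))
  g := D.g
  F x := D.F (Q.ι x)
  cont := D.cont.comp Q.cι
  per := by
    rintro _ ⟨γ, hγ, rfl⟩ x
    show D.F (Q.ι (Q.q γ * x)) = D.F (Q.ι x)
    have h1 : Q.q γ * x = Q.q (γ * Q.ι x) := by rw [Q.mul, Q.qι]
    rw [h1, Q.Fq hP, D.per γ hγ]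
  equi x := by
    show D.F (Q.ι (Q.q (D.T (Q.ι x)) * Q.q D.b)) = D.g (D.F (Q.ι x))
    rw [← Q.mul, Q.Fq hP, D.equi]
  ε := D.ε
  hε := D.hε
  exp := D.exp

end

/-- **Reduction to hyperbolic automorphisms.** -/
theorem reduce_all {Y : Type v} [MetricSpace Y] (m : ℕ) :
    ∀ (V : Type u) [NormedAddCommGroup V] [NormedSpace ℝ V] [FiniteDimensional ℝ V] [Group V]
    (D : GD V Y), Module.finrank ℝ V = m →
    ∃ (V' : Type u) (_ : NormedAddCommGroup V') (_ : NormedSpace ℝ V')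
      (_ : FiniteDimensional ℝ V') (_ : Group V') (D' : GD V' Y) (p : V →ₗ[ℝ] V'),
      Function.Surjective p ∧ (∀ x y, p (x * y) = p x * p y) ∧ (∀ x, p (D.T x) = D'.T (p x)) ∧
      p D.b = D'.b ∧ (∀ x, D'.F (p x) = D.F x) ∧ D'.g = D.g ∧
      (∀ y, y ∈ D'.Γ ↔ ∃ γ ∈ D.Γ, p γ = y) ∧
      ∃ S : V' ≃ₗ[ℝ] V', (∀ v, S v = D'.b⁻¹ * D'.T v * D'.b) ∧ Nonempty (HSp S) := by
  induction m using Nat.strong_induction_on with
  | _ m ih =>
    intro V _ _ _ _ D hm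
    obtain ⟨A, hA⟩ := exists_cj D.E D.b⁻¹
    rw [inv_inv] at hA
    have hS : ∀ v, (D.T.trans A) v = D.b⁻¹ * D.T v * D.b := fun v => hA (D.T v)
    by_cases hH : Nonempty (HSp (D.T.trans A))
    · exact ⟨V, inferInstance, inferInstance, inferInstance, inferInstance, D, LinearMap.id,
        Function.surjective_id, fun _ _ => rfl, fun _ => rfl, rfl, fun _ => rfl, rfl,
        fun y => ⟨fun h => ⟨y, h, rfl⟩, by rintro ⟨γ, hγ, rfl⟩; exact hγ⟩, _, hS, hH⟩
    · have hex : ∃ (v : V) (K : ℝ), (∀ n : ℕ, ‖(D.T.trans A)^[n] v‖ ≤ K) ∧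
          (∀ n : ℕ, ‖(D.T.trans A).symm^[n] v‖ ≤ K) ∧ v ≠ 0 := by
        by_contra hcon
        push Not at hcon
        exact hH (Pool.Agent.D0H65.NIL.t_HYP V (D.T.trans A) fun v K h1 h2 => hcon v K h1 h2)
      obtain ⟨v, K, h1, h2, hv⟩ := hex
      obtain ⟨c, hc0, hcc, hcp⟩ := D.central_per v hv
        (fun x t => D.per_of_bdd _ hS v K h1 h2 x t)
      have hcK : c ∈ D.K := ⟨hcc, hcp⟩
      obtain ⟨V', i1, i2, i3, i4, Q, hQ, hfr⟩ := exists_QG D.toNG D.K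
        (fun k hk => D.cen_add k hk.1) D.K_T
      have h4 : 1 ≤ Module.finrank ℝ D.K := by
        rw [Submodule.one_le_finrank_iff]
        intro hb
        rw [hb, Submodule.mem_bot] at hcK
        exact hc0 hcK
      obtain ⟨V'', j1, j2, j3, j4, D'', p, a1, a2, a3, a4, a5, a6, a7, a8⟩ :=
        ih _ (by omega) V' (Q.gd hQ) rfl
      refine ⟨V'', j1, j2, j3, j4, D'', p ∘ₗ Q.q, a1.comp fun x => ⟨Q.ι x, Q.qι x⟩,
        fun x y => ?_, fun x => ?_, a4, fun x => ?_, a6, fun y => ?_, a8⟩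
      · show p (Q.q (x * y)) = p (Q.q x) * p (Q.q y)
        rw [Q.mul, a2]
      · show p (Q.q (D.T x)) = D''.T (p (Q.q x))
        rw [Q.qT]
        exact a3 (Q.q x)
      · show D''.F (p (Q.q x)) = D.F x
        rw [a5]
        exact Q.Fq hQ x
      · rw [a7]
        constructor
        · rintro ⟨_, ⟨γ, hγ, rfl⟩, rfl⟩
          exact ⟨γ, hγ, rfl⟩
        · rintro ⟨γ, hγ, rfl⟩
          exact ⟨Q.q γ, ⟨γ, hγ, rfl⟩, rfl⟩

/-- **Fixed points.**  If the linear part is hyperbolic then the affine map has a fixed point, and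
in the coordinates centred there it is a hyperbolic automorphism. -/
theorem exists_fix {V : Type u} [NormedAddCommGroup V] [NormedSpace ℝ V] [FiniteDimensional ℝ V]
    [Group V] {Y : Type v} [MetricSpace Y] (D : GD V Y) (S : V ≃ₗ[ℝ] V)
    (hS : ∀ v, S v = D.b⁻¹ * D.T v * D.b) (hH : Nonempty (HSp S)) :
    ∃ y : V, D.T y * D.b = y ∧ Nonempty (HSp D.T) := by
  obtain ⟨H⟩ := hH
  let B : NB V :=
    { cmul := D.cmul
      line := D.line
      acom := D.acom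
      T := S
      Tmul := fun x y => by
        rw [hS, hS, hS, D.Tmul]
        group
      H := H
      n := D.n
      W := D.W
      W0 := D.W0
      Wn := D.Wn
      Wanti := D.Wanti
      Wid := D.Wid
      Wcom := D.Wcom
      WT := fun i x hx => by
        rw [hS]
        have h1 := (D.Wid i D.b⁻¹ _ (D.WT i x hx)).2
        rw [inv_inv] at h1
        exact h1 }
  obtain ⟨y, hy⟩ := Pool.Agent.D0H65.NIL.t_LANG V B D.b
  have hy' : y * (S y)⁻¹ = D.b := hy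
  have hfix : D.T y * D.b = y := by
    rw [hS] at hy'
    have h1 : y = D.b * (D.b⁻¹ * D.T y * D.b) := by
      have h2 := congrArg (fun z => z * (D.b⁻¹ * D.T y * D.b)) hy'
      simp only [inv_mul_cancel_right] at h2
      exact h2
    rw [mul_assoc D.b⁻¹, mul_inv_cancel_left] at h1
    exact h1.symm
  refine ⟨y, hfix, ?_⟩
  obtain ⟨A, hA⟩ := exists_cj D.E y⁻¹
  rw [inv_inv] at hA
  refine Pool.Agent.D0H65.NIL.hsp_transport D.T S A.toContinuousLinearEquiv (fun v => ?_) H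
  show A (D.T v) = S (A v)
  rw [hS, hA, hA, D.Tmul, D.Tmul, D.toNG.T_inv]
  conv_lhs => rw [← hfix]
  group

end Pool.Agent.D0H26.Gen
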