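import Pool.Agent.D0H26.Gen.Base
import Pool.Agent.D0H26.Nilm.Main

/-!
# Reduction to hyperbolic automorphisms

A continuous function on a compact nilmanifold which is invariant under a one-parameter group of
right translations is invariant under a central one-parameter group.
-/

set_option autoImplicit false
set_option linter.unusedSectionVars false

open Filter Topology Set Metric

namespace Pool.Agent.D0H26.Gen

open Pool.Agent.D0H26.Fac (HSp subV)
open Pool.Agent.D0H26.Nil (ExpCoord IsIdeal proj_mul finite_ball symm_mem)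
open Pool.Agent.D0H26.Nilm (uc_F)

universe u v w

/-- an affine diffeomorphism of a compact nilmanifold and a semiconjugacy to an expansive
homeomorphism -/
structure GD (V Y : Type*) [NormedAddCommGroup V] [NormedSpace ℝ V] [Group V] [MetricSpace Y]
    extends NG V where
  E : ExpCoord V
  b : V
  Γ : Subgroup V
  TΓ : ∀ γ ∈ Γ, T γ ∈ Γ
  TΓ' : ∀ γ ∈ Γ, T.symm γ ∈ Γ
  R : ℝ
  coc : ∀ i, ∀ x ∈ W i, ∃ γ ∈ Γ, γ ∈ W i ∧ ‖γ * x‖ ≤ R
  g : Y ≃ₜ Y
  F : V → Y
  cont : Continuous F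
  per : ∀ γ ∈ Γ, ∀ x, F (γ * x) = F x
  equi : ∀ x, F (T x * b) = g (F x)
  ε : ℝ
  hε : 0 < ε
  exp : ∀ a c, (∀ n : ℕ, dist (g^[n] a) (g^[n] c) ≤ ε) →
    (∀ n : ℕ, dist (g.symm^[n] a) (g.symm^[n] c) ≤ ε) → a = c

/-- conjugations as linear equivalences -/
theorem exists_cj {V : Type*} [NormedAddCommGroup V] [NormedSpace ℝ V] [FiniteDimensional ℝ V]
    [Group V] (E : ExpCoord V) (y : V) : ∃ A : V ≃ₗ[ℝ] V, ∀ x, A x = y * x * y⁻¹ := by
  obtain ⟨A, hA⟩ := E.conj y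
  refine ⟨LinearEquiv.ofBijective A ⟨?_, ?_⟩, hA⟩
  · intro a c h
    rw [hA, hA] at h
    exact mul_left_cancel (mul_right_cancel h)
  · intro z
    exact ⟨y⁻¹ * z * y, by rw [hA]; group⟩

theorem iter_smul {V : Type*} [NormedAddCommGroup V] [NormedSpace ℝ V] (S : V ≃ₗ[ℝ] V) (n : ℕ)
    (s : ℝ) (v : V) : S^[n] (s • v) = s • S^[n] v := by
  induction n with
  | zero => rfl
  | succ n ih => rw [Function.iterate_succ_apply', Function.iterate_succ_apply', ih, map_smul]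

section
variable {V : Type*} [NormedAddCommGroup V] [NormedSpace ℝ V] [FiniteDimensional ℝ V] [Group V]
  {Y : Type*} [MetricSpace Y] (D : GD V Y)

theorem GD.coc0 : ∀ x, ∃ γ ∈ D.Γ, ‖γ * x‖ ≤ D.R := by
  intro x
  obtain ⟨γ, hγ, -, hn⟩ := D.coc 0 x (by rw [D.W0]; trivial)
  exact ⟨γ, hγ, hn⟩

theorem GD.uc (e : ℝ) (he : 0 < e) :
    ∃ δ > 0, ∀ x v : V, ‖v‖ < δ → dist (D.F (x * v)) (D.F x) < e :=
  uc_F D.E D.Γ D.R D.coc0 D.F D.cont D.per e he

theorem GD.fwd (S : V ≃ₗ[ℝ] V) (hS : ∀ v, S v = D.b⁻¹ * D.T v * D.b) (n : ℕ) (x : V) :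
    ∃ z, ∀ v, D.g^[n] (D.F (x * v)) = D.F (z * S^[n] v) := by
  induction n with
  | zero => exact ⟨x, fun v => rfl⟩
  | succ n ih =>
    obtain ⟨z, hz⟩ := ih
    refine ⟨D.T z * D.b, fun v => ?_⟩
    rw [Function.iterate_succ_apply', Function.iterate_succ_apply', hz, ← D.equi, D.Tmul, hS]
    congr 1
    group

theorem GD.equi' (x : V) : D.g.symm (D.F x) = D.F (D.T.symm (x * D.b⁻¹)) := by
  rw [D.g.symm_apply_eq, ← D.equi, D.T.apply_symm_apply, inv_mul_cancel_right]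

theorem GD.bwd (S : V ≃ₗ[ℝ] V) (hS : ∀ v, S v = D.b⁻¹ * D.T v * D.b) (n : ℕ) (x : V) :
    ∃ z, ∀ v, D.g.symm^[n] (D.F (x * v)) = D.F (z * S.symm^[n] v) := by
  induction n with
  | zero => exact ⟨x, fun v => rfl⟩
  | succ n ih =>
    obtain ⟨z, hz⟩ := ih
    refine ⟨D.T.symm (z * D.b⁻¹), fun v => ?_⟩
    rw [Function.iterate_succ_apply', Function.iterate_succ_apply', hz, D.equi']
    obtain ⟨w, hw⟩ : ∃ w, w = S.symm (S.symm^[n] v) := ⟨_, rfl⟩
    have h1 : S.symm^[n] v = S w := by rw [hw, S.apply_symm_apply]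
    rw [← hw, h1, hS]
    have h2 : z * (D.b⁻¹ * D.T w * D.b) * D.b⁻¹ = z * D.b⁻¹ * D.T w := by group
    rw [h2, D.Tsmul, D.T.symm_apply_apply]

/-- **Bounded directions are periods.** -/
theorem GD.per_of_bdd (S : V ≃ₗ[ℝ] V) (hS : ∀ v, S v = D.b⁻¹ * D.T v * D.b) (v : V) (K : ℝ)
    (h1 : ∀ n : ℕ, ‖S^[n] v‖ ≤ K) (h2 : ∀ n : ℕ, ‖S.symm^[n] v‖ ≤ K) (x : V) (t : ℝ) :
    D.F (x * (t • v)) = D.F x := by
  obtain ⟨δ, hδ, huc⟩ := D.uc D.ε D.hε
  have hK : 0 ≤ K := (norm_nonneg _).trans (h1 0)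
  have hone := D.E.one_eq
  have small : ∀ s : ℝ, |s| * K < δ → ∀ x, D.F (x * (s • v)) = D.F x := by
    intro s hs x
    refine D.exp _ _ (fun n => ?_) (fun n => ?_)
    · obtain ⟨z, hz⟩ := D.fwd S hS n x
      have e1 := hz (s • v)
      have e2 := hz 1
      rw [mul_one, hone, Function.iterate_fixed (map_zero S) n, ← hone, mul_one] at e2
      rw [e1, e2]
      refine (huc z _ ?_).le
      rw [iter_smul, norm_smul, Real.norm_eq_abs]
      exact (mul_le_mul_of_nonneg_left (h1 n) (abs_nonneg s)).trans_lt hs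
    · obtain ⟨z, hz⟩ := D.bwd S hS n x
      have e1 := hz (s • v)
      have e2 := hz 1
      rw [mul_one, hone, Function.iterate_fixed (map_zero S.symm) n, ← hone, mul_one] at e2
      rw [e1, e2]
      refine (huc z _ ?_).le
      rw [iter_smul, norm_smul, Real.norm_eq_abs]
      exact (mul_le_mul_of_nonneg_left (h2 n) (abs_nonneg s)).trans_lt hs
  obtain ⟨m, hm⟩ := exists_nat_gt (|t| * K / δ)
  have hm0 : (0 : ℝ) < (m : ℝ) + 1 := by positivity
  have hs : |t / ((m : ℝ) + 1)| * K < δ := by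
    rw [abs_div, abs_of_pos hm0, div_mul_eq_mul_div, div_lt_iff₀ hm0]
    rw [div_lt_iff₀ hδ] at hm
    nlinarith
  have hpow : ∀ k : ℕ, D.F (x * ((t / ((m : ℝ) + 1)) • v) ^ k) = D.F x := by
    intro k
    induction k with
    | zero => rw [pow_zero, mul_one]
    | succ k ih => rw [pow_succ, ← mul_assoc, small _ hs, ih]
  have h3 := hpow (m + 1)
  rw [D.E.pow_eq', smul_smul, mul_div_cancel₀ _ hm0.ne'] at h3
  exact h3

/-- **From periods to central periods.** -/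
theorem GD.central_per (v : V) (hv : v ≠ 0) (hper : ∀ x (t : ℝ), D.F (x * (t • v)) = D.F x) :
    ∃ c, c ≠ 0 ∧ c ∈ D.cen ∧ ∀ x (t : ℝ), D.F (x * (t • c)) = D.F x := by
  obtain ⟨L, hL⟩ : ∃ L : ℕ → Prop, ∀ i, L i ↔ ∃ v ∈ D.W i, v ≠ 0 ∧
      ∀ x (t : ℝ), D.F (x * (t • v)) = D.F x := ⟨_, fun i => Iff.rfl⟩
  have hex : ∃ i, L i ∧ ¬ L (i + 1) := by
    by_contra hcon
    push Not at hcon
    have hall : ∀ i, L i := by
      intro i
      induction i with
      | zero => exact (hL 0).2 ⟨v, by rw [D.W0]; trivial, hv, hper⟩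
      | succ i ih => exact hcon i ih
    obtain ⟨w, hw, hw0, -⟩ := (hL D.n).1 (hall D.n)
    rw [D.Wn, Submodule.mem_bot] at hw
    exact hw0 hw
  obtain ⟨i, hi, hi1⟩ := hex
  obtain ⟨v, hvW, hv, hper⟩ := (hL i).1 hi
  refine ⟨v, hv, ?_, hper⟩
  by_contra hcen
  obtain ⟨C, hC⟩ : ∃ C : ℕ → Prop, ∀ j, C j ↔ ∀ u ∈ D.W j, u * v = v * u := ⟨_, fun j => Iff.rfl⟩
  have hex : ∃ j, ¬ C j ∧ C (j + 1) := by
    by_contra hcon
    push Not at hcon
    have hall : ∀ j, ¬ C j := by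
      intro j
      induction j with
      | zero =>
        intro h0
        rw [hC] at h0
        exact hcen fun x => h0 x (by rw [D.W0]; trivial)
      | succ j ih => exact hcon j ih
    refine hall D.n ((hC _).2 fun u hu => ?_)
    rw [D.Wn, Submodule.mem_bot, ← D.one_eq] at hu
    rw [hu, one_mul, mul_one]
  obtain ⟨j, hj, hj1⟩ := hex
  rw [hC] at hj hj1
  push Not at hj
  obtain ⟨u, hu, huv⟩ := hj
  obtain ⟨A, hA⟩ := exists_cj D.E v⁻¹
  rw [inv_inv] at hA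
  obtain ⟨w, hw⟩ : ∃ w, w = A u - u := ⟨_, rfl⟩
  have hw1 : w ∈ D.W (j + 1) := by
    have h1 := D.W_inv (D.Wcom j v u hu)
    have h2 := (D.Wid (j + 1) u _ h1).1
    have e : u * (v⁻¹ * u⁻¹ * v * u)⁻¹ = A u := by
      rw [hA]
      group
    rw [e, ← hw] at h2
    exact h2
  have hw2 : w ∈ D.W (i + 1) := by
    have h1 := D.Wcom i u v hvW
    have h2 := (D.Wid (i + 1) u _ h1).1
    have e : u * (u⁻¹ * v⁻¹ * u * v) = A u := by
      rw [hA]
      group
    rw [e, ← hw] at h2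
    exact h2
  have hw0 : w ≠ 0 := by
    intro h0
    rw [h0] at hw
    have h1 : A u = u := by rw [← sub_eq_zero, ← hw]
    rw [hA] at h1
    apply huv
    calc u * v = v * (v⁻¹ * u * v) := by group
      _ = v * u := by rw [h1]
  refine hi1 ((hL _).2 ⟨w, hw2, hw0, fun x τ => ?_⟩)
  have hcom : ∀ τ : ℝ, (τ • w) * v = v * (τ • w) := fun τ =>
    hj1 _ ((D.W (j + 1)).smul_mem τ hw1)
  have hAw : A w = w := by
    have h1 := hcom 1
    rw [one_smul] at h1
    rw [hA, mul_assoc, h1, inv_mul_cancel_left]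
  have hAm : ∀ (m : ℕ) (s : ℝ), (v ^ m)⁻¹ * (s • u) * v ^ m = s • u + (s * m) • w := by
    intro m s
    induction m with
    | zero => simp
    | succ m ih =>
      have e : (v ^ (m + 1))⁻¹ * (s • u) * v ^ (m + 1) = A ((v ^ m)⁻¹ * (s • u) * v ^ m) := by
        rw [hA, pow_succ]
        group
      rw [e, ih, map_add, map_smul, map_smul, hAw]
      have h1 : A u = u + w := by rw [hw]; abel
      rw [h1, smul_add]
      push_cast
      rw [mul_add, mul_one, add_smul]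
      abel
  obtain ⟨a, ha⟩ : ∃ a, a = τ • w := ⟨_, rfl⟩
  rw [← ha]
  refine eq_of_forall_dist_le fun e he => ?_
  obtain ⟨δ, hδ, huc⟩ := D.uc (e / 2) (half_pos he)
  have ht : Tendsto (fun m : ℕ => (τ * ((m : ℝ) + 1)⁻¹) • u) atTop (𝓝 0) := by
    have h1 : Tendsto (fun m : ℕ => ((m : ℝ) + 1)⁻¹) atTop (𝓝 0) := by
      have := tendsto_one_div_add_atTop_nhds_zero_nat (𝕜 := ℝ)
      simpa using this
    have h2 := (h1.const_mul τ).smul_const u
    simpa using h2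
  have ht2 : Tendsto (fun m : ℕ => a⁻¹ * ((τ * ((m : ℝ) + 1)⁻¹) • u + a)) atTop (𝓝 0) := by
    have hc : Continuous fun z : V => a⁻¹ * (z + a) :=
      D.cmul.comp (continuous_const.prodMk (continuous_id.add continuous_const))
    have h1 := (hc.tendsto 0).comp ht
    rw [zero_add, inv_mul_cancel, D.one_eq] at h1
    exact h1
  have he1 := (Metric.tendsto_nhds.1 ht) δ hδ
  have he2 := (Metric.tendsto_nhds.1 ht2) δ hδ
  obtain ⟨m, hm1, hm2⟩ := (he1.and he2).exists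
  rw [dist_zero_right] at hm1 hm2
  obtain ⟨s, hs⟩ : ∃ s, s = τ * ((m : ℝ) + 1)⁻¹ := ⟨_, rfl⟩
  rw [← hs] at hm1 hm2
  have hpv : ∀ y, D.F (y * v ^ (m + 1)) = D.F y := by
    intro y
    rw [D.E.pow_eq']
    exact hper y _
  have h1 : D.F (x * (s • u)) = D.F (x * v ^ (m + 1) * (s • u + a)) := by
    rw [← hpv (x * (s • u))]
    have h2 := hAm (m + 1) s
    have h3 : s * ((m + 1 : ℕ) : ℝ) = τ := by
      rw [hs]
      push_cast
      rw [mul_assoc, inv_mul_cancel₀ (by positivity), mul_one]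
    rw [h3, ← ha] at h2
    rw [← h2]
    congr 1
    group
  have h4 : D.F (x * v ^ (m + 1) * a) = D.F (x * a) := by
    have h5 : v ^ (m + 1) * a = a * v ^ (m + 1) := by
      have h6 : Commute v a := by
        rw [ha]
        exact (hcom τ).symm
      exact h6.pow_left (m + 1)
    rw [mul_assoc, h5, ← mul_assoc, hpv]
  have h7 := huc (x * v ^ (m + 1) * a) (a⁻¹ * (s • u + a)) hm2
  have h8 : x * v ^ (m + 1) * a * (a⁻¹ * (s • u + a)) = x * v ^ (m + 1) * (s • u + a) := by group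
  rw [h8, ← h1, h4] at h7
  have h9 := huc x (s • u) hm1
  have h10 := dist_triangle_left (D.F (x * a)) (D.F x) (D.F (x * (s • u)))
  linarith

/-- the central periods -/
def GD.K : Submodule ℝ V where
  carrier := {k | k ∈ D.cen ∧ ∀ x (t : ℝ), D.F (x * (t • k)) = D.F x}
  zero_mem' := ⟨D.cen.zero_mem, fun x t => by rw [smul_zero, ← D.one_eq, mul_one]⟩
  add_mem' := by
    rintro a c ⟨ha, ha'⟩ ⟨hc, hc'⟩
    refine ⟨D.cen.add_mem ha hc, fun x t => ?_⟩
    rw [smul_add, ← (D.cen_add _ (D.cen.smul_mem t hc) (t • a)).1, ← mul_assoc, hc', ha']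
  smul_mem' := by
    rintro s a ⟨ha, ha'⟩
    exact ⟨D.cen.smul_mem s ha, fun x t => by rw [smul_smul]; exact ha' x _⟩

theorem GD.K_T : ∀ k ∈ D.K, D.T k ∈ D.K := by
  rintro k ⟨hk, hk'⟩
  refine ⟨D.cen_T k hk, fun y t => ?_⟩
  obtain ⟨x, hx⟩ : ∃ x, y = D.T x * D.b :=
    ⟨D.T.symm (y * D.b⁻¹), by rw [D.T.apply_symm_apply, inv_mul_cancel_right]⟩
  have h1 : D.T (t • k) ∈ D.cen := D.cen_T _ (D.cen.smul_mem t hk)
  have h2 : y * (t • D.T k) = D.T (x * (t • k)) * D.b := by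
    rw [hx, ← map_smul, D.Tmul, mul_assoc, h1 D.b, ← mul_assoc]
  rw [h2, D.equi, hk', ← D.equi, hx]

end

end Pool.Agent.D0H26.Gen
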